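import Pool.Agent.MP_ee8c61_ag.M3J.Big
import Pool.Agent.MP_ee8c61_ag.M3S.AllF
import Pool.Agent.MP_ee8c61_ag.M3F.All
import Pool.Agent.MP_ee8c61_ag.M3.Frame

/-!
The two cases in which the surface is contracted to a point.
-/

namespace Pool.Agent.MP_ee8c61_ag.M3J

open M3 M3RESID M3F M3S M3SB Pool.Agent.MP_96693b_ag.RS Pool.Agent.MP_cce4c9_lc.H87 WithZero
  Finset

noncomputable section

variable {L : Type} [Field L] [Algebra ℂ L] {D : SD L} {M : Model L 2}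

theorem pt_x (M : Model L 2) (hp : D.Pt) (l : Fin 3) : ∃ c : ℂ, D.x l = algebraMap ℂ L c :=
  const_of_der (thmFnd _ M) (hp _ (IntermediateField.subset_adjoin _ _ (Or.inl ⟨l, rfl⟩)))

/-- The traces as divisors on a model. -/
structure Tr (D : SD L) (M : Model L 2) (B : D.A → Dr M) (S : Finset (Crv M)) : Prop where
  cv : ∀ Γ : Crv M, Cv D.x (oC Γ)
  co : ∀ j Γ, B j Γ = D.β j (oC Γ)
  nef : Nef (∑ j, ((D.al j + D.t1 * D.h j : ℚ) : ℝ) • B j)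
  big : 0 < II M (∑ j, ((D.al j + D.t1 * D.h j : ℚ) : ℝ) • B j)
    (∑ j, ((D.al j + D.t1 * D.h j : ℚ) : ℝ) • B j)
  triv : ∀ Γ, II M (∑ j, ((D.al j + D.t0 * D.h j : ℚ) : ℝ) • B j) (pr Γ) = 0
  neg : M3SN.NegDef (II M) S
  orth : ∀ j, ∀ G ∈ S, II M (B j) (pr G) = 0
  nn : ∀ Γ ∉ S, ¬Null D.x D.S1 (oC Γ)
  pole : ∀ s ∈ D.S0, ∀ Γ : Crv M, Γ.1.ord s < 0 →
    (∑ j, ((D.al j + D.t0 * D.h j : ℚ) : ℝ) • B j) Γ ≠ 0

theorem sum_co {B : D.A → Dr M} (h : ∀ j Γ, B j Γ = D.β j (oC Γ)) (r : D.A → ℚ) (Γ : Crv M) :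
    (∑ j, (r j : ℝ) • B j) Γ = ((∑ j, r j * D.β j (oC Γ) : ℚ) : ℝ) := by
  simp [Finsupp.finsetSum_apply, h]

theorem exists_tr (h : D.OK) (hp : D.Pt) (n0 : ∀ p, NoB D.S0 (M.loc p).O)
    (n1 : ∀ p, NoB D.S1 (M.loc p).O) (nj : ∀ j p, NoB (D.Sj j) (M.loc p).O) :
    ∃ B S, Tr D M B S := by
  classical
  have hM := thmFnd _ M
  have hx := pt_x M hp
  have cv := cv_of hM.toB1 hx
  obtain ⟨Θ0, h0⟩ := exists_th hM.toFinS n0
  obtain ⟨Θ1, h1⟩ := exists_th hM.toFinS n1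
  choose Θ hj using fun j => exists_th hM.toFinS (nj j)
  have hm : (0 : ℝ) < D.m := Nat.cast_pos.2 h.sem.m
  have hε : (0 : ℝ) < D.ε := by exact_mod_cast h.sem.ε
  let B : D.A → Dr M := fun j => ((D.m : ℝ) * D.ε)⁻¹ • (Θ j - Θ1)
  have co : ∀ j Γ, B j Γ = D.β j (oC Γ) := fun j Γ => by
    simp only [B, Finsupp.smul_apply, Finsupp.sub_apply, smul_eq_mul]
    rw [th_dg (hj j) (h.sem.dgj j _ (cv Γ)), th_dg h1 (h.sem.dg1 _ (cv Γ))]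
    push_cast
    field_simp
    ring
  have e : ∀ (t : ℚ) (Θ' : Dr M), (∀ Γ, Θ' Γ = ((D.m * D.th t (oC Γ) : ℚ) : ℝ)) →
      ∑ j, ((D.al j + t * D.h j : ℚ) : ℝ) • B j = (D.m : ℝ)⁻¹ • Θ' := fun t Θ' e => by
    ext Γ
    rw [sum_co co, Finsupp.smul_apply, e, smul_eq_mul, Rat.cast_mul, Rat.cast_natCast,
      inv_mul_cancel_left₀ hm.ne']
    rfl
  have e0 := e _ Θ0 fun Γ => th_dg h0 (h.sem.dg0 _ (cv Γ))
  have e1 := e _ Θ1 fun Γ => th_dg h1 (h.sem.dg1 _ (cv Γ))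
  have big : 0 < II M Θ1 Θ1 := h1.big' hM D.C fun δ hδ => h.big δ fun g hg => by
    have : RF D.x D.S1 ≤ cst {δ} := IntermediateField.adjoin_le_iff.2 (by
      rintro _ (⟨l, rfl⟩ | ⟨s, hs, s', hs', rfl⟩) _ e
      · obtain ⟨c, e'⟩ := hx l
        rw [e', Derivation.map_algebraMap]
      · exact Set.mem_singleton_iff.1 e ▸ hδ s hs s' hs')
    exact this hg δ rfl
  obtain ⟨T, hT, hN, -⟩ := (thmOK _ M).tools.null Θ1 (h1.nef hM) big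
  refine ⟨B, T.filter fun Γ => Null D.x D.S1 (oC Γ), cv, co, ?_, ?_, fun Γ => ?_,
    hN.mono (filter_subset _ _), fun j G hG => ?_,
    fun Γ hΓ hn => hΓ (mem_filter.2 ⟨(hT Γ).2 (th_null h1 hM hn.2), hn⟩), fun s hs Γ hΓ => ?_⟩
  · rw [e1]
    exact M3SN.Nef.smul (I := II M) (h1.nef hM) (inv_nonneg.2 hm.le)
  · rw [e1]
    simp only [map_smul, LinearMap.smul_apply, smul_eq_mul]
    positivity
  · rw [e0, map_smul, LinearMap.smul_apply, th_null h0 hM fun s hs s' hs' => not_nc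
      (const_of_der hM (hp _ (IntermediateField.subset_adjoin _ _
        (Or.inr ⟨s, hs.1, s', hs', rfl⟩)))), smul_zero]
  · have hn := (mem_filter.1 hG).2
    simp only [B, map_smul, map_sub, LinearMap.smul_apply, LinearMap.sub_apply]
    rw [th_null h1 hM hn.2, th_null (hj j) hM ((h.nul _ (cv G) hn).2 j).2, sub_zero, smul_zero]
  · have s0 : s ≠ 0 := fun e => by simp [e] at hΓ
    have a1 := h0.le hs s0 Γ
    have a2 : (Γ.1.ord s : ℝ) < 0 := by exact_mod_cast hΓ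
    rw [e0, Finsupp.smul_apply, smul_eq_mul]
    exact mul_ne_zero (inv_ne_zero hm.ne') (by linarith)

/-- A model adapted to the datum. -/
theorem exists_ad (h : D.OK) (hp : D.Pt) {R : Finset L} (hR : ∃ r ∈ R, r ≠ 0) :
    ∃ (M : Model L 2) (J : Finset (Crv M)) (B : D.A → Dr M) (S : Finset (Crv M)),
      Tr D M B S ∧ SncC (J : Set (Crv M)) ∧ (∀ p, NoB R (M.loc p).O) ∧
      ∀ Γ ∉ J, D.ex (oC Γ) = 1 ∧ (∀ j, D.β j (oC Γ) = 0) ∧ Reg (oC Γ) D.v := by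
  classical
  obtain ⟨M0, -⟩ := exists_mdl D.C h.vol.srf.fin (κ := Empty) Empty.elim fun k => k.elim
  obtain ⟨p0, -⟩ := ROK.off (thmFnd _ M0) ∅
  obtain ⟨Γ0, -⟩ := (thmFnd _ M0).thru p0 0 (zero_mem _) (by simpa using (M0.loc p0).ev_alg 0)
  have c0 := cv_of (thmB1 _ M0) (pt_x M0 hp) Γ0
  have ne : ∀ {T : Finset L} {n : ℚ}, Dg T (oC Γ0) n → ∃ s ∈ T, s ≠ 0 :=
    fun ⟨s, hs, _⟩ => ⟨s, hs.1, hs.2.1⟩
  obtain ⟨M1, h1⟩ := exists_mdl D.C h.vol.srf.fin (κ := D.A ⊕ Fin 3)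
    (Sum.elim D.Sj ![D.S0, D.S1, R]) (by
      rintro (j | k)
      · exact ne (h.sem.dgj j _ c0)
      · fin_cases k
        exacts [ne (h.sem.dg0 _ c0), ne (h.sem.dg1 _ c0), hR])
  have hM := thmFnd _ M1
  obtain ⟨B1, S1, t1⟩ := exists_tr h hp (h1 (.inr 0)) (h1 (.inr 1)) fun j => h1 (.inl j)
  obtain ⟨M, hd, J, s1, s2, s3, -⟩ := thmSnc _ M1 ((univ.biUnion fun j => (B1 j).support) ∪
    (reg_fin hM.toB1 D.v).toFinset ∪ (KD M1).support ∪ (hM.fin (rho D.C)).toFinset ∪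
    (hM.fin D.ψ).toFinset)
  have up : ∀ k p, NoB (Sum.elim D.Sj ![D.S0, D.S1, R] k) (M.loc p).O := fun k p => by
    obtain ⟨b, hb⟩ := hd p
    obtain ⟨s, a1, a2, a3⟩ := h1 k b
    exact ⟨s, a1, a2, fun s' hs' => hb (a3 s' hs')⟩
  obtain ⟨B, S, t⟩ := exists_tr h hp (up (.inr 0)) (up (.inr 1)) fun j => up (.inl j)
  refine ⟨M, J, B, S, t, s1, up (.inr 2), fun Γ hΓ => ?_⟩
  obtain ⟨C, hC⟩ : ∃ C : Crv M1, C.1 = Γ.1 := by
    by_contra! hn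
    exact hΓ (s3 Γ hn)
  have h2 := mt (fun a => s2 C a Γ hC.symm) hΓ
  simp only [mem_union, not_or, mem_biUnion, mem_univ, true_and, not_exists,
    Finsupp.mem_support_iff, not_not, Set.Finite.mem_toFinset, Set.mem_ofPred_eq] at h2
  obtain ⟨⟨⟨⟨a1, a2⟩, a3⟩, a4⟩, a5⟩ := h2
  rw [show oC Γ = oC C from congrArg dvP hC.symm]
  refine ⟨?_, fun j => ?_, a2⟩
  · have := exp_eq hM.toB2 h.vol.q0 h.vol.ψ0 h.vol.rat (h.vol.exp _ (t1.cv C))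
    rw [a3, a4, a5] at this
    have h3 : (D.ex (oC C) : ℝ) = 1 := by simpa [sub_eq_zero] using this
    exact_mod_cast h3
  · have := a1 j
    rw [t1.co] at this
    exact_mod_cast this

theorem st_of (hK : M3V.StmtKVN) (h : D.OK) (hp : D.Pt) {J S : Finset (Crv M)} {B : D.A → Dr M}
    (t : Tr D M B S) (hs : SncC (J : Set (Crv M)))
    (hJ : ∀ Γ ∉ J, D.ex (oC Γ) = 1 ∧ (∀ j, D.β j (oC Γ) = 0) ∧ Reg (oC Γ) D.v)
    {r : D.A → ℚ} (hr : ∀ j, 0 < r j) (nQ : Nef (∑ j, (r j : ℝ) • B j))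
    (bQ : 0 < II M (∑ j, (r j : ℝ) • B j) (∑ j, (r j : ℝ) • B j))
    (nA : Nef (-∑ j, (D.al j : ℝ) • B j))
    (hP : (∀ Γ : Crv M, D.α (oC Γ) ≤ 0) ∨
      Prim M D.d D.C D.v fun Γ => ⌈D.α (oC Γ) - D.ex (oC Γ)⌉) : D.St := by
  have hM := thmFnd _ M
  obtain ⟨k, hk⟩ := exists_gen hM (thmOK _ M) t.nef t.big
  have sg := fun Γ => h.sgn _ (t.cv Γ)
  refine StarS.star (vq hM (thmOK _ M) (hK _ M) h.vol.srf (a := fun Γ => D.ex (oC Γ))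
    (α := fun Γ => D.α (oC Γ)) (Q := fun Γ => ∑ j, r j * D.β j (oC Γ))
    (fun Γ => h.vol.exp _ (t.cv Γ)) hs
    (fun Γ hΓ => ⟨(hJ Γ hΓ).1, by simp [SD.α, (hJ Γ hΓ).2.1], by simp [(hJ Γ hΓ).2.1]⟩)
    (fun Γ => (sg Γ).2.1) (fun Γ => sum_nonneg fun j _ => mul_nonneg (hr j).le ((sg Γ).1 j))
    (fun Γ e => ?_) (sum_co t.co D.al) (sum_co t.co r) nA nQ bQ t.neg (fun G hG => ?_) hk
    (fun Γ hΓ => ?_) (hP.imp_left fun a => ⟨a, fun Γ hΓ => (hJ Γ hΓ).2.2⟩)) ?_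
  · obtain ⟨j, hj⟩ := (sg Γ).2.2 e
    exact sum_pos' (fun j _ => mul_nonneg (hr j).le ((sg Γ).1 j))
      ⟨j, mem_univ _, mul_pos (hr j) hj⟩
  · rw [map_smul, LinearMap.smul_apply, I_sum]
    simp [t.orth _ G hG]
  · rcases h.kvl _ (t.cv Γ) (t.nn Γ hΓ) with ⟨j, hj⟩ | ⟨a1, a2⟩
    · exact Or.inl hj.1
    · refine Or.inr ⟨by simp [SD.α, a1], by simp [a1], ?_, a2⟩
      rw [Finsupp.smul_apply, sum_co t.co]
      simp [a1]
  · rintro _ ⟨l, rfl⟩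
    obtain ⟨c, e⟩ := pt_x M hp l
    exact e ▸ IntermediateField.algebraMap_mem _ c

theorem lvc_of (hK : M3V.StmtKVN) : LVc := by
  intro L _ _ D h _ hp hO
  classical
  obtain ⟨M, J, B, S, t, hs, -, hJ⟩ := exists_ad h hp (R := {1}) ⟨1, by simp, one_ne_zero⟩
  have hB : ∀ j, 0 ≤ B j := fun j Γ => by
    change (0 : ℝ) ≤ B j Γ
    rw [t.co]
    exact_mod_cast (h.sgn _ (t.cv Γ)).1 j
  have z : ∀ k, B k ≠ 0 → ∃ Γ ∉ S, D.β k (oC Γ) ≠ 0 := fun k hk => by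
    by_contra! hn
    have h1 : M3SN.Sup S (B k) := fun Γ hΓ => by rw [t.co, hn Γ hΓ, Rat.cast_zero]
    exact (t.neg _ h1 hk).ne (M3SN.orth_of_sup (t.orth k) h1)
  obtain ⟨j, hj⟩ : ∃ j, B j ≠ 0 := by
    by_contra! hn
    simpa [hn] using t.big
  have e : ∀ r : D.A → ℚ, ∑ k, (r k : ℝ) • B k = (r j : ℝ) • B j := fun r =>
    sum_eq_single j (fun k _ hk => by
      by_contra h1
      obtain ⟨Γ, a1, a2⟩ := z k (right_ne_zero_of_smul h1)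
      obtain ⟨Γ', b1, b2⟩ := z j hj
      exact hk (hO k j _ _ (t.cv Γ) (t.nn Γ a1) a2 (t.cv Γ') (t.nn Γ' b1) b2)) (by simp)
  have n1 := t.nef
  have b1 := t.big
  have t0 := M3SN.triv_of_cv (I := II M) t.triv (B j)
  rw [e] at n1 b1 t0
  have n2 := M3SN.Nef.eff (I := II M) n1 (hB j)
  simp only [map_smul, LinearMap.smul_apply, smul_eq_mul] at b1 t0 n2
  set x : ℝ := ((D.al j + D.t1 * D.h j : ℚ) : ℝ) with hx
  have x0 : x ≠ 0 := fun e => by simp [e] at b1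
  have b2 : 0 < II M (B j) (B j) := by
    rw [← mul_assoc] at b1
    exact (mul_pos_iff_of_pos_left (mul_self_pos.2 x0)).1 b1
  have x1 : 0 < x := lt_of_le_of_ne (nonneg_of_mul_nonneg_left n2 b2) x0.symm
  have x2 : 0 < D.al j + D.t1 * D.h j := by rw [hx] at x1; exact_mod_cast x1
  have y0 : D.al j + D.t0 * D.h j = 0 := by
    exact_mod_cast (mul_eq_zero.1 t0).resolve_right b2.ne'
  have h0 : 0 < D.h j := (mul_pos_iff_of_pos_left (sub_pos.2 h.sem.t1)).1 (by linarith)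
  have a0 : D.al j ≤ 0 := by linarith [mul_nonneg h.sem.t0 h0.le]
  have a1 : (D.al j : ℝ) ≤ 0 := by exact_mod_cast a0
  have n3 : Nef (B j) := by
    have := M3SN.Nef.smul (I := II M) n1 (inv_nonneg.2 x1.le)
    rwa [inv_smul_smul₀ x0] at this
  refine st_of hK h hp t hs hJ (r := fun _ => 1) (fun _ => one_pos) ?_ ?_ ?_ (Or.inl fun Γ => ?_)
  · rw [e]; simpa using n3
  · rw [e]; simpa using b2
  · rw [e, ← neg_smul]
    exact M3SN.Nef.smul (I := II M) n3 (neg_nonneg.2 a1)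
  · have h1 := sum_co t.co D.al Γ
    rw [e, Finsupp.smul_apply, smul_eq_mul] at h1
    have h2 : ((D.α (oC Γ) : ℚ) : ℝ) ≤ 0 := h1 ▸ mul_nonpos_of_nonpos_of_nonneg a1 (hB j Γ)
    exact_mod_cast h2

theorem lvz_of (hK : M3V.StmtKVN) : LVz := by
  intro L _ _ D h ht ⟨R, θ, hR, hC⟩ hZ hp
  obtain ⟨M, J, B, S, t, hs, nR, hJ⟩ := exists_ad h hp hR
  have hM := thmFnd _ M
  have hB : ∀ j, 0 ≤ B j := fun j Γ => by
    change (0 : ℝ) ≤ B j Γ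
    rw [t.co]
    exact_mod_cast (h.sgn _ (t.cv Γ)).1 j
  have tr := t.triv
  have po := t.pole
  simp only [ht, zero_mul, add_zero] at tr po
  obtain ⟨q, q0, q1⟩ := nef_q (I := II M) ⟨hM.sym, hM.off⟩ B hB D.al tr fun Γ => by
    by_cases hΓ : Γ ∈ S
    · exact Or.inl fun k => t.orth k Γ hΓ
    rcases h.kvl _ (t.cv Γ) (t.nn Γ hΓ) with ⟨j, hj⟩ | ⟨a1, -⟩
    · refine Or.inr (Or.inr ⟨j, fun k hk => by rw [t.co, hj.2.2 k hk, Rat.cast_zero], fun e => ?_⟩)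
      obtain ⟨-, s, a1, a2⟩ := hZ _ j (t.cv Γ) (t.nn Γ hΓ) hj e
      obtain ⟨C', b1, b2, b3⟩ := meet_of_nonconst hM.toB3 Γ a2.1 a2.2
      exact ⟨C', b1, po s a1 C' b2, b3⟩
    · exact Or.inr (Or.inl fun k => by rw [t.co, a1 k, Rat.cast_zero])
  obtain ⟨r, r0, r1, r2⟩ := big_q (I := II M) (thmOK _ M).tools.kle B q0 q1 t.nef t.big
  refine st_of hK h hp t hs hJ r0 r1 r2 (fun Γ => ?_) (Or.inr ?_)
  · rw [map_neg, LinearMap.neg_apply, tr, neg_zero]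
  refine prim_of_cc (ι := R) (↑) (fun i => θ i) (fun p => ?_) (fun i Γ i0 hi => ?_)
    fun i i' Γ i0 i0' hi hi' => ?_
  · obtain ⟨s, a1, a2, a3⟩ := nR p
    exact ⟨⟨s, a1⟩, a2, fun j => a3 j j.2⟩
  · obtain ⟨n, a1, a2⟩ := (hC _ (t.cv Γ) i ⟨i.2, i0, fun s hs => hi ⟨s, hs⟩⟩).1
    exact LV_anti (Int.ceil_le.2 a1) a2
  · by_cases e : θ i - θ i' = 0
    · rw [e]; exact zero_mem _
    have a1 := ((hC _ (t.cv Γ) i ⟨i.2, i0, fun s hs => hi ⟨s, hs⟩⟩).2 i'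
      ⟨i'.2, i0', fun s hs => hi' ⟨s, hs⟩⟩).resolve_left (sub_ne_zero.1 e)
    have a2 := exp_eq hM.toB2 h.vol.q0 h.vol.ψ0 h.vol.rat (h.vol.exp _ (t.cv Γ))
    obtain ⟨k, hk⟩ := hM.kZ Γ
    have hρ := rho_ne hM.toB2 D.C
    have hq : (0 : ℝ) < D.q := Nat.cast_pos.2 h.vol.q0
    have a3 : (D.q : ℝ) * D.α (oC Γ) ≤ D.q * Γ.1.ord (θ i - θ i') + Γ.1.ord D.ψ := by
      exact_mod_cast a1
    have a4 : ⌈D.α (oC Γ) - D.ex (oC Γ)⌉ ≤ Γ.1.ord (θ i - θ i') + Γ.1.ord (rho D.C) - k - 1 := by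
      rw [Int.ceil_le, ← Rat.cast_le (K := ℝ)]
      push_cast
      have a5 : (D.α (oC Γ) : ℝ) - Γ.1.ord (θ i - θ i') ≤ Γ.1.ord D.ψ / D.q := by
        rw [le_div_iff₀ hq]
        linarith
      linarith
    rw [mem_LB_iff hM.toB2, Γ.1.val_le_exp (Γ.1.val_ne (mul_ne_zero e hρ)),
      Γ.1.ord_mul (Γ.1.val_ne e) (Γ.1.val_ne hρ), neg_le, Int.le_floor, hk]
    exact_mod_cast (by omega)

end

end Pool.Agent.MP_ee8c61_ag.M3J
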