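import Pool.Agent.MP_ee8c61_ag.M3J.NefQ
import Pool.Agent.MP_ee8c61_ag.M3SB.Th2
import Pool.Agent.MP_ee8c61_ag.M3.FDefs

/-!
Linear systems without base points that do not contract the surface.
-/

namespace Pool.Agent.MP_ee8c61_ag.M3J

open M3 M3RESID M3F M3S M3SB Pool.Agent.MP_96693b_ag.RS Pool.Agent.MP_cce4c9_lc.H87 WithZero

noncomputable section

variable {K : Type} [Field K] [Algebra ℂ K] {M : Model K 2}

theorem F1_iff {v : Place ℂ K} {x : K} : x ∈ (dvP v).F 1 ↔ v.val x < 1 := by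
  by_cases h0 : x = 0
  · simp [h0]
  · rw [v.val_lt_one (v.val_ne h0), DV.mem_F, dvP_v]
    simp only [h0, false_or]
    omega

section Th

variable {T : Finset K} {D : Dr M} (h : IsTh T D)
include h

theorem th_dg {Γ : Crv M} {n : ℚ} (hd : Dg T (oC Γ) n) : D Γ = n := by
  obtain ⟨s, ⟨hs, s0, hg⟩, e⟩ := hd
  have e' : (Γ.1.ord s : ℝ) = -(n : ℝ) := by exact_mod_cast e
  refine h.eq_of (fun t ht t0 => ?_) ⟨s, hs, s0, e'⟩
  rw [← e']
  exact_mod_cast ord_le s0 t0 (mem_dvP0.1 (hg t ht))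

theorem th_null (hM : Fnd M) {Γ : Crv M}
    (hn : ∀ s, GnS T (oC Γ) s → ∀ s' ∈ T, ¬NC (oC Γ) (s' / s)) : II M D (pr Γ) = 0 := by
  obtain ⟨s, hs, s0, e⟩ := h.ex Γ
  have hg : ∀ t ∈ T, t / s ∈ (oC Γ).F 0 := fun t ht => by
    by_cases t0 : t = 0
    · simp [t0]
    have h1 := h.le ht t0 Γ
    rw [← e, Int.cast_le] at h1
    refine Or.inr ?_
    rw [dvP_v, div_eq_mul_inv, Γ.1.ord_mul (Γ.1.val_ne t0) (Γ.1.val_ne (inv_ne_zero s0)),
      Γ.1.ord_inv]
    omega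
  refine h.null hM (h.mem s hs) s0 fun t ht => ?_
  by_contra! hc
  exact hn s ⟨hs, s0, hg⟩ t ht ⟨hg t ht, fun c h1 => (hc c).not_gt (F1_iff.1 h1)⟩

end Th

/-- The sections of a multiple of a nef and big divisor generate the field. -/
theorem exists_gen (hM : Fnd M) (hO : (toNS hM.toFinS).OK) {D : Dr M} (h1 : Nef D)
    (h2 : 0 < II M D D) :
    ∃ k : ℕ, IntermediateField.adjoin ℂ (H0 ((k : ℝ) • D) : Set K) = ⊤ := by
  have hw : 0 < II M D (wD M) := lt_of_le_of_ne (hO.tools.nw D h1).1 fun e =>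
    h2.ne' ((hO.tools.nw D h1).2 e.symm D)
  have ww := ROK.ww hM
  obtain ⟨n, hn⟩ := exists_nat_gt (max (2 * II M D (wD M) / II M D D)
    (II M (wD M) (wD M) / II M D (wD M)))
  rw [max_lt_iff, div_lt_iff₀ h2, div_lt_iff₀ hw] at hn
  have n0 : (0 : ℝ) < n := (mul_pos_iff_of_pos_right hw).1 (ww.trans hn.2)
  obtain ⟨m, f, m0, f0, hf⟩ := hO.tools.big ((n : ℝ) • D - wD M) (by
    change 0 < II M _ _
    simp only [map_sub, map_smul, LinearMap.sub_apply, LinearMap.smul_apply, smul_eq_mul,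
      hM.sym (wD M) D]
    nlinarith [mul_pos n0 (sub_pos.2 hn.1)]) (by
    change 0 < II M _ (wD M)
    simp only [map_sub, map_smul, LinearMap.sub_apply, LinearMap.smul_apply, smul_eq_mul]
    linarith [hn.2])
  obtain ⟨m, rfl⟩ : ∃ k, m = k + 1 := ⟨m - 1, by omega⟩
  obtain ⟨u, hu, u0⟩ := M.nz
  have g0 : f * u ^ m ≠ 0 := mul_ne_zero f0 (pow_ne_zero _ u0)
  have key : ∀ a ∈ M.U, f * u ^ m * a ∈ H0 ((((m + 1) * n : ℕ) : ℝ) • D) := fun a ha => by
    by_cases a0 : a = 0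
    · simp [a0]
    refine (mem_H0 (mul_ne_zero g0 a0)).2 fun Γ => ?_
    have a1 := (mem_H0 a0).1 (hM.wsec a ha) Γ
    have a2 := mul_nonneg (Nat.cast_nonneg (α := ℝ) m) ((mem_H0 u0).1 (hM.wsec u hu) Γ)
    have a3 : (0 : ℝ) ≤ dvr M f Γ + ((m + 1 : ℕ) : ℝ) * (n * D Γ - wD M Γ) := hf Γ
    rw [hM.dva] at a3
    rw [Γ.1.ord_mul (Γ.1.val_ne g0) (Γ.1.val_ne a0),
      Γ.1.ord_mul (Γ.1.val_ne f0) (Γ.1.val_ne (pow_ne_zero _ u0)), Γ.1.ord_pow,
      Finsupp.smul_apply, smul_eq_mul]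
    push_cast at a3 ⊢
    linarith
  refine ⟨(m + 1) * n, eq_top_iff.2 ?_⟩
  rw [← (M.gens : _ = ⊤), IntermediateField.adjoin_le_iff]
  rintro _ ⟨a, ha, b, hb, rfl⟩
  simp only
  rw [← mul_div_mul_left a b g0]
  exact div_mem (IntermediateField.subset_adjoin _ _ (key a ha))
    (IntermediateField.subset_adjoin _ _ (key b hb))

/-- A function that is killed by all vector fields is constant. -/
theorem const_of_der (hM : Fnd M) {g : K} (h : ∀ X : VF K, X g = 0) :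
    ∃ c : ℂ, g = algebraMap ℂ K c := by
  obtain ⟨p, hp⟩ := ROK.off hM (hM.fin g).toFinset
  have hO : g ∈ (M.loc p).O := hM.hart p g fun Γ hΓ => mem_dvP0.1 (Or.inr (by
    by_contra h1
    exact hp Γ ((Set.Finite.mem_toFinset _).2 fun e => h1 (ge_of_eq e)) hΓ))
  obtain ⟨κ, hκ⟩ := M.smooth _ p.2
  replace hκ : IsCrd (M.loc p) κ := hκ
  refine ⟨(M.loc p).ev g, sub_eq_zero.1 ?_⟩
  have h1 := (M.loc p).O.algebraMap_mem ((M.loc p).ev g)
  have h2 : (M.loc p).ev (g - algebraMap ℂ K ((M.loc p).ev g)) = 0 := by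
    rw [Loc.ev_sub hO h1, (M.loc p).ev_alg, sub_self]
  have h3 : ∀ X : VF K, X (g - algebraMap ℂ K ((M.loc p).ev g)) = 0 := fun X => by simp [h X]
  have h4 := sub_mem hO h1
  generalize g - algebraMap ℂ K ((M.loc p).ev g) = η at h2 h3 h4
  have h5 : ∀ l : List (Der K), ders l η = η ∨ ders l η = 0 := fun l => by
    induction l with
    | nil => exact Or.inl rfl
    | cons X l ih =>
      rcases ih with e | e
      · exact Or.inr (by rw [ders_cons, e, h3])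
      · exact Or.inr (by rw [ders_cons, e, map_zero])
  have : η ∈ (⊥ : Submodule (M.loc p).O K) := Loc.krull bot_le fun e => by
    by_contra hn
    rw [← Chart.I_empty (κ := κ)] at hn
    obtain ⟨l, -, -, h6⟩ := hκ.exists_ders_unit h4 hn
    rcases h5 (l.map κ.D) with e | e
    · exact h6 (by rw [e, h2])
    · exact h6 (by rw [e]; simpa using (M.loc p).ev_alg 0)
  simpa using this

theorem not_nc {o : DV K} {g : K} (h : ∃ c : ℂ, g = algebraMap ℂ K c) : ¬NC o g := by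
  obtain ⟨c, rfl⟩ := h
  exact fun h => h.2 c (by simp)

theorem cv_of (hM : B1 M) {x : Fin 3 → K} (hx : ∀ l, ∃ c : ℂ, x l = algebraMap ℂ K c)
    (Γ : Crv M) : Cv x (oC Γ) := by
  refine ⟨?_, fun l => ?_, ?_⟩
  · obtain ⟨C', hA⟩ := exists_At hM Γ
    exact ⟨C'.z 0, by simp [hA.v]⟩
  · obtain ⟨c, e⟩ := hx l
    exact e ▸ const_F _ c
  · obtain ⟨p, hp, g, hg, e0, e1⟩ := Γ.2
    refine ⟨g, mem_dvP0.2 e1.le, fun c h => ?_⟩
    have h1 := (M.loc p).O.algebraMap_mem c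
    have h2 := hM.evz Γ p hp _ (sub_mem hg h1) (F1_iff.1 h)
    rw [Loc.ev_sub hg h1, (M.loc p).ev_alg, e0, zero_sub, neg_eq_zero] at h2
    rw [h2, map_zero, sub_zero, F1_iff, e1] at h
    exact lt_irrefl _ h

end

end Pool.Agent.MP_ee8c61_ag.M3J
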