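import Pool.Agent.MP_ee8c61_ag.M3J.Ss

/-!
Coordinates on a field with two independent derivations; Jacobians and divergence.
-/

namespace Pool.Agent.MP_ee8c61_ag.M3J

noncomputable section

open Module

variable {K : Type} [Field K] [Algebra ℂ K]

/-- Two derivations dual to two elements, spanning all derivations. -/
structure Co (K : Type) [Field K] [Algebra ℂ K] where
  D : Fin 2 → Derivation ℂ K K
  s : Fin 2 → K
  dual : ∀ i j, D i (s j) = if i = j then 1 else 0
  span : ∀ (δ : Derivation ℂ K K) (g : K), δ g = δ (s 0) * D 0 g + δ (s 1) * D 1 g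

/-- The constants of a derivation. -/
def kerF (δ : Derivation ℂ K K) : IntermediateField ℂ K where
  carrier := {x | δ x = 0}
  mul_mem' := fun {a b} ha hb => by
    simp only [Set.mem_ofPred_eq] at *
    simp [ha, hb]
  one_mem' := by simp
  add_mem' := fun {a b} ha hb => by
    simp only [Set.mem_ofPred_eq] at *
    simp [ha, hb]
  zero_mem' := by simp
  algebraMap_mem' := fun c => by simp
  inv_mem' := fun a ha => by
    simp only [Set.mem_ofPred_eq] at *
    simp [Derivation.leibniz_inv, ha]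

theorem mem_kerF {δ : Derivation ℂ K K} {x : K} : x ∈ kerF δ ↔ δ x = 0 := Iff.rfl

theorem der_zero {T : Set K} (hT : IntermediateField.adjoin ℂ T = ⊤) (δ : Derivation ℂ K K)
    (h : ∀ g ∈ T, δ g = 0) (x : K) : δ x = 0 := by
  have : IntermediateField.adjoin ℂ T ≤ kerF δ := IntermediateField.adjoin_le_iff.2 h
  exact this (hT ▸ IntermediateField.mem_top)

theorem der_zpow (δ : Derivation ℂ K K) {y a : K} (hy : y ≠ 0) (h : δ y = a * y) (n : ℤ) :
    δ (y ^ n) = n * a * y ^ n := by
  induction n using Int.induction_on with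
  | zero => simp
  | succ n ih =>
    rw [zpow_add_one₀ hy, Derivation.leibniz, ih, h]
    push_cast
    simp only [smul_eq_mul]
    ring
  | pred n ih =>
    rw [zpow_sub_one₀ hy, Derivation.leibniz, ih, Derivation.leibniz_inv, h]
    push_cast
    simp only [smul_eq_mul]
    field_simp
    ring

namespace Co

variable (C : Co K)

theorem d00 : C.D 0 (C.s 0) = 1 := by simp [C.dual]
theorem d01 : C.D 0 (C.s 1) = 0 := by simp [C.dual]
theorem d10 : C.D 1 (C.s 0) = 0 := by simp [C.dual]
theorem d11 : C.D 1 (C.s 1) = 1 := by simp [C.dual]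

theorem comm (g : K) : C.D 0 (C.D 1 g) = C.D 1 (C.D 0 g) := by
  have := C.span ⁅C.D 0, C.D 1⁆ g
  simp only [Derivation.commutator_apply, C.d00, C.d01, C.d10, C.d11, map_zero,
    Derivation.map_one_eq_zero, sub_zero, zero_mul, add_zero] at this
  exact sub_eq_zero.1 this

/-- The Jacobian. -/
def J (g h : K) : K := C.D 0 g * C.D 1 h - C.D 1 g * C.D 0 h

/-- The divergence. -/
def dv (δ : Derivation ℂ K K) : K := C.D 0 (δ (C.s 0)) + C.D 1 (δ (C.s 1))

/-- The vector field with given components. -/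
def vf (a b : K) : Derivation ℂ K K := a • C.D 0 + b • C.D 1

theorem vf_apply (a b g : K) : C.vf a b g = a * C.D 0 g + b * C.D 1 g := rfl

theorem vf_s0 (a b : K) : C.vf a b (C.s 0) = a := by simp [vf_apply, C.d00, C.d10]

theorem vf_s1 (a b : K) : C.vf a b (C.s 1) = b := by simp [vf_apply, C.d01, C.d11]

theorem J_lie (δ : Derivation ℂ K K) (g h : K) :
    δ (C.J g h) + C.dv δ * C.J g h = C.J (δ g) h + C.J g (δ h) := by
  rw [C.span δ (C.J g h), C.span δ g, C.span δ h]
  simp only [J, dv, map_add, map_sub, Derivation.leibniz, smul_eq_mul, C.comm]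
  ring

/-- The Jacobian as a bilinear map. -/
def Jl : K →ₗ[ℂ] K →ₗ[ℂ] K :=
  LinearMap.mk₂ ℂ C.J (fun a b c => by simp only [J, map_add]; ring)
    (fun r a c => by simp only [J, Derivation.map_smul]; simp only [Algebra.smul_def]; ring)
    (fun a b c => by simp only [J, map_add]; ring)
    (fun r a c => by simp only [J, Derivation.map_smul]; simp only [Algebra.smul_def]; ring)

theorem J_mem (v : Derivation ℂ K K) {α β : ℂ} {g h : K} (hg : g ∈ E v 0 α) (hh : h ∈ E v 0 β) :
    C.J g h ∈ E v (C.dv v) (α + β) := by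
  refine bil_gen C.Jl _ _ _ (fun x y => ?_) hg hh
  simp only [Jl, LinearMap.mk₂_apply, op_apply, zero_mul, add_zero]
  exact C.J_lie v x y

theorem J_eq (g h : K) : C.J g h = C.vf (-C.D 1 g) (C.D 0 g) h := by
  rw [vf_apply, J]; ring

theorem J_eq' (g h : K) : C.J g h = C.vf (C.D 1 h) (-C.D 0 h) g := by
  rw [vf_apply, J]; ring

theorem exists_J {T : Set K} (hT : IntermediateField.adjoin ℂ T = ⊤) :
    ∃ g ∈ T, ∃ h ∈ T, C.J g h ≠ 0 := by
  by_contra hc
  push Not at hc
  have h1 : ∀ g ∈ T, ∀ z, C.J g z = 0 := fun g hg z => by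
    rw [J_eq]
    exact der_zero hT _ (fun h hh => by rw [← J_eq]; exact hc g hg h hh) z
  have h2 : C.J (C.s 0) (C.s 1) = 0 := by
    rw [J_eq']
    exact der_zero hT _ (fun g hg => by rw [← J_eq']; exact h1 g hg _) _
  simp [J, C.d00, C.d01, C.d10, C.d11] at h2

end Co

/-- Finitely many generalised eigenvectors generate the field. -/
theorem exists_gens (v : Derivation ℂ K K) (V : Submodule ℂ K) [FiniteDimensional ℂ V]
    (hV : IntermediateField.adjoin ℂ (V : Set K) = ⊤) (hv : ∀ g ∈ V, v g ∈ V) :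
    ∃ (T : Finset K) (wt : K → ℂ), IntermediateField.adjoin ℂ (T : Set K) = ⊤ ∧
      ∀ g ∈ T, g ≠ 0 ∧ g ∈ E v 0 (wt g) := by
  classical
  have hv' : ∀ g ∈ V, op v 0 g ∈ V := fun g hg => by simpa [op_apply] using hv g hg
  let r : End ℂ V := (op v 0).restrict hv'
  let S : Set K := {g | g ∈ V ∧ ∃ α, g ∈ E v 0 α}
  have hS : V ≤ Submodule.span ℂ S := by
    intro g hg
    have h1 : (⟨g, hg⟩ : V) ∈ ⨆ α, r.maxGenEigenspace α := by
      rw [End.iSup_maxGenEigenspace_eq_top]; trivial
    suffices ∀ x ∈ ⨆ α, r.maxGenEigenspace α, (x : K) ∈ Submodule.span ℂ S from this _ h1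
    intro x hx
    induction hx using Submodule.iSup_induction' with
    | mem α x hx =>
      refine Submodule.subset_span ⟨x.2, α, ?_⟩
      rw [End.mem_maxGenEigenspace] at hx ⊢
      obtain ⟨k, hk⟩ := hx
      refine ⟨k, ?_⟩
      have : ∀ (k : ℕ) (x : V), (((r - α • 1) ^ k) x : K) = ((op v 0 - α • 1) ^ k) (x : K) := by
        intro k
        induction k with
        | zero => intro x; rfl
        | succ k ih => intro x; rw [pow_succ, pow_succ, End.mul_apply, End.mul_apply, ih]; rfl
      rw [← this, hk]; rfl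
    | zero => simp
    | add x y _ _ h h' => exact add_mem h h'
  obtain ⟨b, hbS, hsp, hli⟩ := exists_linearIndependent ℂ S
  have hfin : b.Finite := by
    have h1 : LinearIndependent ℂ (fun x : b => (⟨x, (hbS x.2).1⟩ : V)) :=
      LinearIndependent.of_comp V.subtype hli
    exact h1.finite_of_isNoetherian
  refine ⟨hfin.toFinset, fun g => if h : ∃ α, g ∈ E v 0 α then h.choose else 0, ?_, ?_⟩
  · rw [Set.Finite.coe_toFinset, eq_top_iff, ← hV, IntermediateField.adjoin_le_iff]
    intro g hg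
    have h1 : g ∈ Submodule.span ℂ b := hsp ▸ hS hg
    have h2 : Submodule.span ℂ b ≤
        Subalgebra.toSubmodule (IntermediateField.adjoin ℂ b).toSubalgebra :=
      Submodule.span_le.2 (IntermediateField.subset_adjoin ℂ b)
    exact h2 h1
  · intro g hg
    rw [Set.Finite.mem_toFinset] at hg
    have h1 := (hbS hg).2
    refine ⟨hli.ne_zero ⟨g, hg⟩, ?_⟩
    simp only [dif_pos h1]
    exact h1.choose_spec

/-- An additive map with integral values on a finite set, not zero at a given point. -/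
theorem exists_add (S : Finset ℂ) {b : ℂ} (hb : b ≠ 0) :
    ∃ (π : ℂ →+ ℂ) (m : ℤ), m ≠ 0 ∧ π b = m ∧ ∀ α ∈ S, ∃ n : ℤ, π α = n := by
  classical
  obtain ⟨f, hf⟩ : ∃ f : Module.Dual ℚ ℂ, f b ≠ 0 := by
    by_contra h
    push Not at h
    exact hb ((Module.forall_dual_apply_eq_zero_iff ℚ b).1 h)
  obtain ⟨N, hN⟩ := IsLocalization.exist_integer_multiples_of_finset (nonZeroDivisors ℤ)
    ((insert b S).image f)
  have hN0 : (N : ℤ) ≠ 0 := nonZeroDivisors.ne_zero N.2
  have key : ∀ α ∈ insert b S, ∃ n : ℤ, (n : ℚ) = (N : ℤ) * f α := fun α hα => by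
    obtain ⟨n, hn⟩ := hN (f α) (Finset.mem_image_of_mem f hα)
    exact ⟨n, by simpa using hn⟩
  obtain ⟨m, hm⟩ := key b (Finset.mem_insert_self _ _)
  refine ⟨(Rat.castHom ℂ).toAddMonoidHom.comp (((N : ℤ) : ℚ) • f).toAddMonoidHom, m, ?_, ?_,
    fun α hα => ?_⟩
  · intro h0
    rw [h0] at hm
    have : ((N : ℤ) : ℚ) * f b = 0 := by simpa using hm.symm
    rcases mul_eq_zero.1 this with h | h
    · exact hN0 (by exact_mod_cast h)
    · exact hf h
  · change (((((N : ℤ) : ℚ) * f b : ℚ)) : ℂ) = m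
    rw [← hm]; simp
  · obtain ⟨n, hn⟩ := key α (Finset.mem_insert_of_mem hα)
    refine ⟨n, ?_⟩
    change (((((N : ℤ) : ℚ) * f α : ℚ)) : ℂ) = n
    rw [← hn]; simp

end

end Pool.Agent.MP_ee8c61_ag.M3J
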