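import Pool.Agent.MP_ee8c61_ag.M3J.Ex
import Pool.Agent.MP_ee8c61_ag.M3F.Spec
import Pool.Agent.MP_ee8c61_ag.M3H47.Frame

/-!
The frame from a global potential: statement with valuations only.
-/

namespace Pool.Agent.MP_ee8c61_ag.M3J

open M3 M3RESID M3F Finset

noncomputable section

variable {L : Type} [Field L] [Algebra ℂ L]

/-- The bracket attached to the frame of `C`. -/
def br (C : M3RESID.Co L 2) (g h : L) : L := C.D 0 g * C.D 1 h - C.D 1 g * C.D 0 h

/-- Potentials whose bivector shifts the valuation by at least `c`. -/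
def LB (C : M3RESID.Co L 2) (o : DV L) (c : ℤ) : AddSubgroup L where
  carrier := {t | ∀ m m', ∀ g ∈ o.F m, ∀ h ∈ o.F m', t * br C g h ∈ o.F (m + m' + c)}
  zero_mem' := fun m m' g _ h _ => by simp
  add_mem' := fun {t s} ht hs m m' g hg h hh => by
    rw [add_mul]
    exact add_mem (ht m m' g hg h hh) (hs m m' g hg h hh)
  neg_mem' := fun {t} ht m m' g hg h hh => by
    rw [neg_mul]
    exact neg_mem (ht m m' g hg h hh)

variable {d : Dv L} {C C' : M3RESID.Co L 2} {o : DV L}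

theorem LB_anti {c c' : ℤ} (h : c ≤ c') : LB C o c' ≤ LB C o c :=
  fun _ ht m m' g hg k hk => o.F_anti (by omega) (ht m m' g hg k hk)

theorem LV_anti {c c' : ℤ} (h : c ≤ c') : LV o c' ≤ LV o c :=
  fun _ hv m g hg => o.F_anti (by omega) (hv m g hg)

theorem br_chain (C C' : M3RESID.Co L 2) (g h : L) :
    br C g h = br C (C'.z 0) (C'.z 1) * br C' g h := by
  simp only [br]
  rw [ap2 C' (C.D 0) g, ap2 C' (C.D 1) g, ap2 C' (C.D 0) h, ap2 C' (C.D 1) h]
  ring

theorem br_self (C : M3RESID.Co L 2) : br C (C.z 0) (C.z 1) = 1 := by simp [br, C.dual]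

theorem br_ne (C C' : M3RESID.Co L 2) : br C (C'.z 0) (C'.z 1) ≠ 0 := fun h => by
  have := br_chain C C' (C.z 0) (C.z 1)
  rw [br_self, h, zero_mul] at this
  exact one_ne_zero this

theorem ex_br (d : Dv L) (C C' : M3RESID.Co L 2) (t : L) :
    ex d C t = ex d C' (t * br C (C'.z 0) (C'.z 1)) := by
  rw [ex_change d C C']
  congr 2
  simp only [dt, br]
  ring

theorem mem_LB (hA : C'.At o 0) {c : ℤ} {t : L} :
    t ∈ LB C o c ↔ t * br C (C'.z 0) (C'.z 1) ∈ o.F (c + 1) := by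
  refine ⟨fun h => F_of_eq (h 1 0 _ (z0_F hA) _ (z1_F hA)) (by ring), fun h m m' g hg k hk => ?_⟩
  rw [br_chain C C', ← mul_assoc]
  refine F_mul' h (m' := m + m' - 1) (sub_mem ?_ ?_) (by omega)
  · exact F_mul' (D0_F hA hg) (D1_F hA hk) (by omega)
  · exact F_mul' (D1_F hA hg) (D0_F hA hk) (by omega)

theorem ex_LV' (hA : C'.At o 0) {a : ℂ} (hE : Exp d o a) {c : ℤ} {t : L} (ht : t ∈ LB C o c) :
    ex d C t ∈ LV o c := by
  rw [ex_br d C C']
  exact ex_LV hA hE ((mem_LB hA).1 ht)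

theorem LB_of_ex (hA : C'.At o 0) {a : ℂ} (hE : Exp d o a) {c : ℤ} {t : L}
    (ha : ∀ m : ℤ, m < c → a + m ≠ 0) (h : ex d C t ∈ LV o c) : t ∈ LB C o c := by
  rw [ex_br d C C'] at h
  exact (mem_LB hA).2 (F_of_ex hA hE ha h)

/-- A locally finite primitive gives the frame. -/
theorem star_of {v : VF L} {b : ℂ} (h : Srf C d v b) (V : Submodule ℂ L) [FiniteDimensional ℂ V]
    (hV : IntermediateField.adjoin ℂ (V : Set L) = ⊤) {u : VF L} (hu : u ∈ d.Ex)
    (hv : ∀ g ∈ V, (v - u) g ∈ V) : StarS d v b ⊥ := by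
  have : CharZero L := charZero_of_injective_algebraMap (algebraMap ℂ L).injective
  obtain ⟨q, ψ, hq, hψ, hd⟩ := h.rat
  have hq0 : (q : L) ≠ 0 := Nat.cast_ne_zero.2 hq.ne'
  have hF : M3H47.Fr C.z C.D := ⟨C.dual, fun t a => ap2 C t a⟩
  obtain ⟨v', y, -, -, r, -, -, -, e1, -, hy, hr, e2, e3, -⟩ :=
    hF.frame d.δ d.smul hψ hq (fun i => by
      have : C.dv.δ (C.D i) = 0 := by
        change ∑ j, C.D j (C.D i (C.z j)) = 0
        refine Finset.sum_eq_zero fun j _ => ?_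
        rw [C.dual]
        split_ifs <;> simp
      rw [hd, this, zero_add]
      field_simp) (v - u) h.ne (by rw [map_sub, dv_Ex d hu, sub_zero, h.prim]) V hv hV
  refine ⟨v', y, r⁻¹, inv_ne_zero hr, hy, ?_, ?_, bot_le, ?_⟩
  · have h1 : v - u - v' ∈ d.Ex := by
      rw [e1]
      exact AddSubgroup.subset_closure ⟨_, _, rfl⟩
    have := add_mem h1 hu
    rwa [show v - u - v' + u = v - v' by abel] at this
  · have hr' : (r : L) ≠ 0 := Rat.cast_ne_zero.2 hr
    rw [e2, Algebra.smul_def, map_mul, map_ratCast, Rat.cast_inv]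
    field_simp
  · have := e3 ((IntermediateField.adjoin (cst {v'}) {y}).restrictScalars ℂ) (fun x hx =>
      (IntermediateField.adjoin (cst {v'}) {y}).algebraMap_mem
        ⟨x, fun X hX => by rw [Set.mem_singleton_iff.1 hX]; exact hx⟩)
      (IntermediateField.mem_adjoin_simple_self _ y)
    exact (IntermediateField.restrictScalars_eq_top_iff).1 this

/-- The frame from a potential `f` that realises the local potentials along the curves `o γ`. -/
theorem core {v : VF L} {b : ℂ} (h : Srf C d v b) {Γ : Type} (o : Γ → DV L) (a : Γ → ℂ)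
    (c n : Γ → ℤ) (hA : ∀ γ, ∃ C' : M3RESID.Co L 2, C'.At (o γ) 0) (hE : ∀ γ, Exp d (o γ) (a γ))
    (t : Γ → L) (ht : ∀ γ, v - ex d C (t γ) ∈ LV (o γ) (c γ)) (f : L)
    (hf : ∀ γ, f - t γ ∈ LB C (o γ) (c γ))
    (hc : ∀ γ, 0 ≤ c γ ∨ (c γ = -1 ∧ a γ = 1 ∧ Good d v (o γ) ∧ n γ = 0))
    (V : Submodule ℂ L) [FiniteDimensional ℂ V] (hV : IntermediateField.adjoin ℂ (V : Set L) = ⊤)
    (hm : ∀ g, g ∈ V ↔ ∀ γ, g ∈ (o γ).F (n γ)) : StarS d v b ⊥ := by
  refine star_of h V hV (ex_mem d C f) fun g hg => (hm _).2 fun γ => ?_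
  obtain ⟨C', hC'⟩ := hA γ
  have h1 : v - ex d C f ∈ LV (o γ) (c γ) := by
    have := sub_mem (ht γ) (ex_LV' hC' (hE γ) (hf γ))
    rwa [ex_sub, show v - ex d C (t γ) - (ex d C f - ex d C (t γ)) = v - ex d C f by abel] at this
  have h2 := (hm g).1 hg γ
  rcases hc γ with h0 | ⟨h0, h3, ⟨u, hu, h4⟩, h5⟩
  · exact F_of_eq (LV_anti h0 h1 _ g h2) (add_zero _)
  · rw [h5] at h2 ⊢
    refine reg_of_res hC' (h3 ▸ hE γ) (sub_mem hu (ex_mem d C f)) ?_ (h0 ▸ h1) g h2
    rw [show v - ex d C f - (u - ex d C f) = v - u by abel]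
    exact h4

end

end Pool.Agent.MP_ee8c61_ag.M3J
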