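import Pool.Agent.MP_ee8c61_ag.M3RESID.Defs

/-!
Exact fields on a surface: potentials and their orders along a curve.
-/

namespace Pool.Agent.MP_ee8c61_ag.M3J

open M3 M3RESID Finset

noncomputable section

variable {L : Type} [Field L] [Algebra ℂ L]

/-- The exact field with potential `t` in the frame of `C`. -/
def ex (d : Dv L) (C : M3RESID.Co L 2) (t : L) : VF L := d.B (t • C.D 0) (C.D 1)

/-- The determinant of two fields in the coordinates `C`. -/
def dt (C : M3RESID.Co L 2) (X Y : VF L) : L := X (C.z 0) * Y (C.z 1) - X (C.z 1) * Y (C.z 0)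

/-- The field keeps the valuation ring. -/
def Reg (o : DV L) (X : VF L) : Prop := ∀ g ∈ o.F 0, X g ∈ o.F 0

variable (d : Dv L) (C : M3RESID.Co L 2)

theorem ap2 (X : VF L) (g : L) : X g = X (C.z 0) * C.D 0 g + X (C.z 1) * C.D 1 g := by
  rw [C.exp_apply X g, Fin.sum_univ_two]

theorem ext2 {X Y : VF L} (h0 : X (C.z 0) = Y (C.z 0)) (h1 : X (C.z 1) = Y (C.z 1)) : X = Y := by
  ext g
  rw [ap2 C X, ap2 C Y, h0, h1]

theorem dv2 (X : VF L) : d.δ X = X (C.z 0) * d.δ (C.D 0) + C.D 0 (X (C.z 0)) +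
    (X (C.z 1) * d.δ (C.D 1) + C.D 1 (X (C.z 1))) := by
  conv_lhs => rw [C.exp X, Fin.sum_univ_two, map_add, d.smul, d.smul]

theorem B_apply (X Y : VF L) (g : L) :
    d.B X Y g = X (Y g) - Y (X g) + d.δ X * Y g - d.δ Y * X g := rfl

theorem ex_z0 (t : L) : ex d C t (C.z 0) = -(C.D 1 t + t * d.δ (C.D 1)) := by
  simp [ex, B_apply, C.dual]
  ring

theorem ex_z1 (t : L) : ex d C t (C.z 1) = C.D 0 t + t * d.δ (C.D 0) := by
  simp [ex, B_apply, C.dual, d.smul]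
  ring

theorem B_eq (X Y : VF L) : d.B X Y = ex d C (dt C X Y) := by
  apply ext2 C
  · rw [ex_z0, B_apply, dv2 d C X, dv2 d C Y, ap2 C X (Y _), ap2 C Y (X _)]
    simp only [dt, map_sub, Derivation.leibniz, smul_eq_mul]
    ring
  · rw [ex_z1, B_apply, dv2 d C X, dv2 d C Y, ap2 C X (Y _), ap2 C Y (X _)]
    simp only [dt, map_sub, Derivation.leibniz, smul_eq_mul]
    ring

theorem ex_add (t s : L) : ex d C (t + s) = ex d C t + ex d C s := by
  apply ext2 C <;> simp only [Derivation.add_apply, ex_z0, ex_z1, map_add] <;> ring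

theorem ex_sub (t s : L) : ex d C (t - s) = ex d C t - ex d C s := by
  apply ext2 C <;> simp only [Derivation.sub_apply, ex_z0, ex_z1, map_sub] <;> ring

theorem ex_zero : ex d C 0 = 0 := by simpa using ex_sub d C 0 0

theorem ex_mem (t : L) : ex d C t ∈ d.Ex := AddSubgroup.subset_closure ⟨_, _, rfl⟩

theorem exists_ex {u : VF L} (hu : u ∈ d.Ex) : ∃ t, u = ex d C t := by
  induction hu using AddSubgroup.closure_induction with
  | mem x hx =>
    obtain ⟨X, Y, rfl⟩ := hx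
    exact ⟨_, B_eq d C X Y⟩
  | zero => exact ⟨0, (ex_zero d C).symm⟩
  | add x y _ _ hx hy =>
    obtain ⟨t, rfl⟩ := hx
    obtain ⟨s, rfl⟩ := hy
    exact ⟨t + s, (ex_add d C t s).symm⟩
  | neg x _ hx =>
    obtain ⟨t, rfl⟩ := hx
    exact ⟨0 - t, by rw [ex_sub, ex_zero, zero_sub]⟩

theorem ex_change (C' : M3RESID.Co L 2) (t : L) :
    ex d C t = ex d C' (t * dt C' (C.D 0) (C.D 1)) := by
  rw [ex, B_eq d C']
  congr 1
  simp only [dt, Derivation.smul_apply, smul_eq_mul]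
  ring

theorem dv_B (X Y : VF L) : d.δ (d.B X Y) = 0 := by
  simp only [Dv.B, map_add, map_sub, d.lie, d.smul]
  ring

theorem dv_Ex {u : VF L} (hu : u ∈ d.Ex) : d.δ u = 0 := by
  induction hu using AddSubgroup.closure_induction with
  | mem x hx =>
    obtain ⟨X, Y, rfl⟩ := hx
    exact dv_B d X Y
  | zero => simp
  | add x y _ _ hx hy => rw [map_add, hx, hy, add_zero]
  | neg x _ hx => rw [map_neg, hx, neg_zero]

/-! ### Orders along a curve -/

variable {d C} {o : DV L}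

theorem v_zpow (o : DV L) {g : L} (hg : g ≠ 0) (n : ℤ) : o.v (g ^ n) = n * o.v g := by
  induction n using Int.induction_on with
  | zero => simp [o.one]
  | succ n ih => rw [zpow_add_one₀ hg, o.mul _ _ (zpow_ne_zero _ hg) hg, ih]; ring
  | pred n ih =>
    rw [zpow_sub_one₀ hg, o.mul _ _ (zpow_ne_zero _ hg) (inv_ne_zero hg), ih, o.inv]; ring

theorem F_of_eq {m m' : ℤ} {g : L} (h : g ∈ o.F m) (e : m = m') : g ∈ o.F m' := e ▸ h

theorem F_mul' {m m' k : ℤ} {g h : L} (hg : g ∈ o.F m) (hh : h ∈ o.F m') (e : k ≤ m + m') :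
    g * h ∈ o.F k := o.F_anti e (o.F_mul hg hh)

theorem F_cancel {m : ℤ} {g u : L} (hu : u ≠ 0) (h : u * g ∈ o.F (m + o.v u)) : g ∈ o.F m := by
  have h1 : u⁻¹ ∈ o.F (-o.v u) := F_of_eq (o.mem_F_self _) (o.inv u)
  have := F_mul' h1 h (k := m) (by omega)
  rwa [← mul_assoc, inv_mul_cancel₀ hu, one_mul] at this

theorem v_const (hc : ∀ c : ℂ, algebraMap ℂ L c ∈ o.F 0) {c : ℂ} (h : c ≠ 0) :
    o.v (algebraMap ℂ L c) = 0 := by
  have h0 : algebraMap ℂ L c ≠ 0 := by simpa using h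
  have h1 := (hc c).resolve_left h0
  have h2 := (hc c⁻¹).resolve_left (by simpa using h)
  rw [map_inv₀, o.inv] at h2
  omega

section At

variable (hA : C.At o 0)
include hA

theorem z0_F : C.z 0 ∈ o.F 1 := Or.inr (by simp [hA.v])

theorem z1_F : C.z 1 ∈ o.F 0 := Or.inr (by simp [hA.v])

theorem z0_pow (m : ℤ) : C.z 0 ^ m ∈ o.F m := Or.inr (by simp [v_zpow o (C.ne 0), hA.v])

theorem int_F (m : ℤ) : (m : L) ∈ o.F 0 := by simpa using hA.cst m

theorem split {m : ℤ} {g : L} (hg : g ∈ o.F m) : ∃ h ∈ o.F 0, g = C.z 0 ^ m * h :=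
  ⟨C.z 0 ^ (-m) * g, F_mul' (z0_pow hA _) hg (by omega), by
    rw [← mul_assoc, ← zpow_add₀ (C.ne 0), add_neg_cancel, zpow_zero, one_mul]⟩

theorem D1_F {m : ℤ} {g : L} (hg : g ∈ o.F m) : C.D 1 g ∈ o.F m := by
  obtain ⟨h, hh, rfl⟩ := split hA hg
  rw [Derivation.leibniz, Derivation.leibniz_zpow]
  simp only [C.dual, smul_eq_mul]
  simpa using F_mul' (z0_pow hA m) (hA.D 1 h hh) (k := m) (by omega)

theorem th_F {m : ℤ} {g : L} (hg : g ∈ o.F m) :
    C.z 0 * C.D 0 g - m * g ∈ o.F (m + 1) := by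
  obtain ⟨h, hh, rfl⟩ := split hA hg
  have e : C.z 0 * C.D 0 (C.z 0 ^ m * h) - m * (C.z 0 ^ m * h) = C.z 0 ^ (m + 1) * C.D 0 h := by
    rw [Derivation.leibniz, Derivation.leibniz_zpow, zpow_add_one₀ (C.ne 0),
      zpow_sub_one₀ (C.ne 0)]
    simp only [C.dual, smul_eq_mul, zsmul_eq_mul, if_true]
    have := C.ne 0
    field_simp
    ring
  rw [e]
  exact F_mul' (z0_pow hA _) (hA.D 0 h hh) (by omega)

theorem D0_F {m : ℤ} {g : L} (hg : g ∈ o.F m) : C.D 0 g ∈ o.F (m - 1) := by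
  apply F_cancel (C.ne 0)
  have h1 := add_mem (o.F_anti (by omega : m ≤ m + 1) (th_F hA hg))
    (F_mul' (int_F hA m) hg (k := m) (by omega))
  rw [sub_add_cancel] at h1
  exact F_of_eq h1 (by simp [hA.v])

theorem mem_LV {X : VF L} {c : ℤ} :
    X ∈ LV o c ↔ X (C.z 0) ∈ o.F (c + 1) ∧ X (C.z 1) ∈ o.F c := by
  refine ⟨fun h => ⟨F_of_eq (h 1 _ (z0_F hA)) (by ring), F_of_eq (h 0 _ (z1_F hA)) (by ring)⟩,
    fun h m g hg => ?_⟩
  rw [ap2 C X g]
  exact add_mem (F_mul' h.1 (D0_F hA hg) (by omega)) (F_mul' h.2 (D1_F hA hg) (by omega))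

theorem reg_iff {X : VF L} : Reg o X ↔ X (C.z 0) ∈ o.F 0 ∧ X (C.z 1) ∈ o.F 0 := by
  refine ⟨fun h => ⟨h _ (o.F_anti (by omega) (z0_F hA)), h _ (z1_F hA)⟩, fun h g hg => ?_⟩
  rw [ap2 C X g]
  exact add_mem (F_mul' h.1 (hA.D 0 g hg) (by omega)) (F_mul' h.2 (hA.D 1 g hg) (by omega))

theorem Reg.lv {X : VF L} (h : Reg o X) : X ∈ LV o (-1) :=
  (mem_LV hA).2 ⟨F_of_eq ((reg_iff hA).1 h).1 (by ring),
    o.F_anti (by omega) ((reg_iff hA).1 h).2⟩

variable {a : ℂ} (hE : Exp d o a)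
include hE

theorem dv_D1 : d.δ (C.D 1) ∈ o.F 0 :=
  hE.reg _ ((mem_LV hA).2 ⟨by simp [C.dual], by simpa [C.dual] using int_F hA 1⟩)

theorem dv_D0 : C.z 0 * d.δ (C.D 0) + 1 - algebraMap ℂ L a ∈ o.F 1 := by
  obtain ⟨θ, h1, h2⟩ := hE.eul
  have z0 := C.ne 0
  let X : VF L := (C.z 0)⁻¹ • θ - C.D 0
  have hi : (C.z 0)⁻¹ ∈ o.F (-1) := by simpa using z0_pow hA (-1)
  have hX : X ∈ LV o 0 := by
    rw [mem_LV hA]
    constructor
    · have := F_mul' hi (h1 1 _ (z0_F hA)) (k := 0 + 1) (by omega)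
      have e : X (C.z 0) = (C.z 0)⁻¹ * (θ (C.z 0) - ((1 : ℤ) : L) * C.z 0) := by
        simp only [X, Derivation.sub_apply, Derivation.smul_apply, C.dual, smul_eq_mul, if_true]
        field_simp
        simp
      rwa [e]
    · have := F_mul' hi (h1 0 _ (z1_F hA)) (k := 0) (by omega)
      have e : X (C.z 1) = (C.z 0)⁻¹ * (θ (C.z 1) - ((0 : ℤ) : L) * C.z 1) := by
        simp [X, C.dual]
      rwa [e]
  have e : θ = C.z 0 • X + C.z 0 • C.D 0 := by
    simp only [X, smul_sub, smul_smul, mul_inv_cancel₀ z0, one_smul, sub_add_cancel]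
  have h3 : C.z 0 * d.δ X + X (C.z 0) ∈ o.F 1 :=
    add_mem (F_mul' (z0_F hA) (hE.reg X hX) (by omega)) (F_of_eq (hX 1 _ (z0_F hA)) (by ring))
  have h4 := sub_mem h2 h3
  have e2 : d.δ θ = C.z 0 * d.δ X + X (C.z 0) + (C.z 0 * d.δ (C.D 0) + 1) := by
    conv_lhs => rw [e, map_add, d.smul, d.smul]
    simp [C.dual]
  rw [e2] at h4
  have e3 : C.z 0 * d.δ X + X (C.z 0) + (C.z 0 * d.δ (C.D 0) + 1) - algebraMap ℂ L a -
      (C.z 0 * d.δ X + X (C.z 0)) = C.z 0 * d.δ (C.D 0) + 1 - algebraMap ℂ L a := by ring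
  rwa [e3] at h4

theorem ex_lead {m : ℤ} {t : L} (ht : t ∈ o.F (m + 1)) :
    C.z 0 * ex d C t (C.z 1) - algebraMap ℂ L (a + m) * t ∈ o.F (m + 2) := by
  have h1 := add_mem (F_of_eq (th_F hA ht) (by ring : m + 1 + 1 = m + 2))
    (F_mul' ht (dv_D0 hA hE) (k := m + 2) (by omega))
  have e : C.z 0 * ex d C t (C.z 1) - algebraMap ℂ L (a + m) * t =
      C.z 0 * C.D 0 t - ((m + 1 : ℤ) : L) * t +
        t * (C.z 0 * d.δ (C.D 0) + 1 - algebraMap ℂ L a) := by
    rw [ex_z1, map_add, map_intCast]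
    push_cast
    ring
  rwa [e]

theorem ex_LV {c : ℤ} {t : L} (ht : t ∈ o.F (c + 1)) : ex d C t ∈ LV o c := by
  rw [mem_LV hA]
  constructor
  · rw [ex_z0]
    exact neg_mem (add_mem (D1_F hA ht) (F_mul' ht (dv_D1 hA hE) (by omega)))
  · apply F_cancel (C.ne 0)
    have h1 := add_mem (o.F_anti (by omega : c + 1 ≤ c + 2) (ex_lead hA hE ht))
      (F_mul' (hA.cst (a + c)) ht (k := c + 1) (by omega))
    rw [sub_add_cancel] at h1
    exact F_of_eq h1 (by simp [hA.v])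

theorem F_of_ex {c : ℤ} {t : L} (ha : ∀ m : ℤ, m < c → a + m ≠ 0) (h : ex d C t ∈ LV o c) :
    t ∈ o.F (c + 1) := by
  by_contra hn
  have h0 : t ≠ 0 := fun e => hn (Or.inl e)
  have hlt : o.v t - 1 < c := by
    by_contra h1
    exact hn (Or.inr (by omega))
  have h1 := ex_lead hA hE (m := o.v t - 1) (t := t) (F_of_eq (o.mem_F_self t) (by ring))
  have h2 := F_mul' (z0_F hA) ((mem_LV hA).1 h).2 (k := o.v t - 1 + 2) (by omega)
  have h3 := sub_mem h2 h1
  rw [sub_sub_cancel] at h3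
  have h4 := ha _ hlt
  have h5 : t ∈ o.F (o.v t - 1 + 2) :=
    F_cancel ((map_ne_zero _).2 h4) (F_of_eq h3 (by rw [v_const hA.cst h4, add_zero]))
  have := h5.resolve_left h0
  omega

omit hE in
theorem ex_reg (hE : Exp d o 1) {t : L} (ht : t ∈ o.F 0) : Reg o (ex d C t) := by
  rw [reg_iff hA]
  constructor
  · rw [ex_z0]
    exact neg_mem (add_mem (D1_F hA ht) (F_mul' ht (dv_D1 hA hE) (by omega)))
  · apply F_cancel (C.ne 0)
    have h1 := ex_lead hA hE (m := -1) (t := t) (F_of_eq ht (by ring))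
    simp only [Int.reduceNeg, Int.cast_neg, Int.cast_one, add_neg_cancel, map_zero, zero_mul,
      sub_zero] at h1
    exact F_of_eq h1 (by simp [hA.v])

omit hE in
/-- At a curve of exponent one with zero residue a field with a simple pole is regular. -/
theorem reg_of_res (hE : Exp d o 1) {v u : VF L} (hu : u ∈ d.Ex) (h : Reg o (v - u))
    (hv : v ∈ LV o (-1)) : Reg o v := by
  obtain ⟨t, rfl⟩ := exists_ex d C hu
  have h1 : ex d C t ∈ LV o (-1) := by
    have := sub_mem hv (h.lv hA)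
    rwa [sub_sub_cancel] at this
  have h2 := F_of_ex hA hE (fun m hm => by
    have : ((1 + m : ℤ) : ℂ) ≠ 0 := Int.cast_ne_zero.2 (by omega)
    simpa using this) h1
  intro g hg
  have := add_mem (h g hg) (ex_reg hA hE (F_of_eq h2 (by ring)) g hg)
  rwa [Derivation.sub_apply, sub_add_cancel] at this

end At

end

end Pool.Agent.MP_ee8c61_ag.M3J
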