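import Pool.Agent.MP_ee8c61_ag.M3J.Co

/-!
A locally finite vector field which scales a twisted volume form gives a product frame.
-/

namespace Pool.Agent.MP_ee8c61_ag.M3J

noncomputable section

open Module Polynomial

variable {K : Type} [Field K] [Algebra ℂ K]

theorem charZero : CharZero K := charZero_of_injective_algebraMap (algebraMap ℂ K).injective

theorem transc {δ : Derivation ℂ K K} {y : K} {d : ℤ} (hy : y ≠ 0) (hd : d ≠ 0)
    (h : δ y = d * y) : Transcendental (kerF δ) y := by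
  have : CharZero K := charZero
  intro hal
  have hint := hal.isIntegral
  have hder : ∀ P : (kerF δ)[X], δ (aeval y P) = aeval y (derivative P) * δ y := by
    intro P
    induction P using Polynomial.induction_on' with
    | add p q hp hq => simp only [map_add, hp, hq]; ring
    | monomial n a =>
      have ha : δ (a : K) = 0 := a.2
      simp only [aeval_monomial, derivative_monomial, Derivation.leibniz, Derivation.leibniz_pow,
        map_mul, map_natCast, smul_eq_mul, IntermediateField.algebraMap_apply, ha, nsmul_eq_mul]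
      ring
  have h1 := hder (minpoly (kerF δ) y)
  rw [minpoly.aeval, map_zero, h] at h1
  have h2 : aeval y (derivative (minpoly (kerF δ) y)) = 0 := by
    rcases mul_eq_zero.1 h1.symm with h2 | h2
    · exact h2
    · exact absurd h2 (mul_ne_zero (Int.cast_ne_zero.2 hd) hy)
  exact (minpoly.irreducible hint).separable.aeval_derivative_ne_zero (minpoly.aeval _ _) h2

/-- A field of constants over which `y` is transcendental equals any subfield generating the
field together with `y`. -/
theorem le_of_transc {F F' : IntermediateField ℂ K} (hle : F' ≤ F) {y : K}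
    (hy : Transcendental F y) (ht : IntermediateField.adjoin F' {y} = ⊤) : F ≤ F' := by
  intro f hf
  have h1 : f ∈ IntermediateField.adjoin F' {y} := ht ▸ IntermediateField.mem_top
  rw [IntermediateField.mem_adjoin_simple_iff] at h1
  obtain ⟨P, Q, h⟩ := h1
  by_cases hQ : aeval y Q = 0
  · rw [h, hQ, div_zero]; exact zero_mem _
  have hQ0 : Q ≠ 0 := by rintro rfl; simp at hQ
  let i : F' →+* F := (IntermediateField.inclusion hle).toRingHom
  have hi : ∀ R : F'[X], aeval y (R.map i) = aeval y R := fun R => by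
    rw [aeval_def, aeval_def, eval₂_map]; rfl
  have h2 : C (⟨f, hf⟩ : F) * Q.map i - P.map i = 0 := by
    apply (transcendental_iff.1 hy)
    rw [map_sub, map_mul, hi, hi, aeval_C]
    change f * _ - _ = 0
    rw [h, div_mul_cancel₀ _ hQ, sub_self]
  have h3 := congrArg (fun R => ((coeff R Q.natDegree : F) : K)) h2
  simp only [coeff_sub, coeff_C_mul, coeff_map, coeff_zero] at h3
  have h4 : f * (Q.coeff Q.natDegree : K) = (P.coeff Q.natDegree : K) := sub_eq_zero.1 h3
  have h5 : (Q.coeff Q.natDegree : K) ≠ 0 := by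
    have : Q.coeff Q.natDegree ≠ 0 := leadingCoeff_ne_zero.2 hQ0
    simpa using this
  rw [eq_div_of_mul_eq h5 h4]
  exact div_mem (SetLike.coe_mem _) (SetLike.coe_mem _)

/-- The grading: a derivation with integral weights on generators. -/
theorem grading (δ : Derivation ℂ K K) (T : Finset K)
    (hT : IntermediateField.adjoin ℂ (T : Set K) = ⊤)
    (hw : ∀ g ∈ T, g ≠ 0 ∧ ∃ n : ℤ, δ g = n * g) :
    ∃ (y : K) (d : ℤ), y ≠ 0 ∧ δ y = d * y ∧
      (∀ x : K, x ≠ 0 → ∀ n : ℤ, δ x = n * x → d ∣ n) ∧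
      IntermediateField.adjoin (kerF δ) {y} = ⊤ ∧ (d ≠ 0 → (kerF δ).FG) := by
  classical
  let G : AddSubgroup ℤ :=
    { carrier := {n | ∃ x : K, x ≠ 0 ∧ δ x = n * x}
      zero_mem' := ⟨1, one_ne_zero, by simp⟩
      add_mem' := by
        rintro a b ⟨x, hx, h⟩ ⟨z, hz, h'⟩
        refine ⟨x * z, mul_ne_zero hx hz, ?_⟩
        rw [Derivation.leibniz, h, h']
        push_cast
        simp only [smul_eq_mul]
        ring
      neg_mem' := by
        rintro a ⟨x, hx, h⟩
        refine ⟨x ^ (-1 : ℤ), zpow_ne_zero _ hx, ?_⟩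
        rw [der_zpow δ hx h]
        push_cast
        ring }
  obtain ⟨d, hd⟩ := Int.subgroup_cyclic G
  have hdG : d ∈ G := hd ▸ AddSubgroup.subset_closure rfl
  obtain ⟨y, hy, hdy⟩ := hdG
  have hdiv : ∀ x : K, x ≠ 0 → ∀ n : ℤ, δ x = n * x → d ∣ n := fun x hx n h => by
    have : n ∈ G := ⟨x, hx, h⟩
    rw [hd, AddSubgroup.mem_closure_singleton] at this
    obtain ⟨k, hk⟩ := this
    exact ⟨k, by rw [← hk, smul_eq_mul, mul_comm]⟩
  have hk : ∀ g ∈ T, ∃ k : ℤ, δ (g * y ^ k) = 0 := fun g hg => by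
    obtain ⟨h0, n, hn⟩ := hw g hg
    obtain ⟨k, rfl⟩ := hdiv g h0 n hn
    refine ⟨-k, ?_⟩
    rw [Derivation.leibniz, der_zpow δ hy hdy, hn]
    push_cast
    simp only [smul_eq_mul]
    ring
  choose! k hk using hk
  have htop : ∀ F : IntermediateField ℂ K, (∀ g ∈ T, g * y ^ k g ∈ F) →
      IntermediateField.adjoin F {y} = ⊤ := fun F hF => by
    have h1 : IntermediateField.adjoin ℂ (T : Set K) ≤
        (IntermediateField.adjoin F {y}).restrictScalars ℂ := by
      rw [IntermediateField.adjoin_le_iff]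
      intro g hg
      have hy' : y ∈ IntermediateField.adjoin F {y} := IntermediateField.mem_adjoin_simple_self F y
      have h2 : g * y ^ k g ∈ IntermediateField.adjoin F {y} :=
        (IntermediateField.adjoin F {y}).algebraMap_mem ⟨_, hF g hg⟩
      have h3 : g = g * y ^ k g / y ^ k g := by
        rw [mul_div_cancel_right₀ _ (zpow_ne_zero _ hy)]
      change g ∈ IntermediateField.adjoin F {y}
      rw [h3]
      exact div_mem h2 (zpow_mem hy' _)
    rw [eq_top_iff]
    intro x _
    exact h1 (hT ▸ IntermediateField.mem_top)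
  refine ⟨y, d, hy, hdy, hdiv, htop _ hk, fun hd0 => ⟨T.image fun g => g * y ^ k g, ?_⟩⟩
  have hle : IntermediateField.adjoin ℂ ((T.image fun g => g * y ^ k g : Finset K) : Set K) ≤
      kerF δ := by
    rw [IntermediateField.adjoin_le_iff]
    intro x hx
    obtain ⟨g, hg, rfl⟩ := Finset.mem_image.1 hx
    exact hk g hg
  refine le_antisymm hle (le_of_transc hle (transc hy hd0 hdy) (htop _ fun g hg => ?_))
  exact IntermediateField.subset_adjoin _ _ (Finset.mem_image_of_mem _ hg)

/-- The product frame for the form `A ds₀ + B ds₁` and the volume form `c ds₀ ds₁` with values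
in the line with connection `d + (1/q) dlog φ`. -/
def Frame (C : Co K) (q : ℕ) (φ c A B : K) (b : ℂ) : Prop :=
  ∃ (K0 : IntermediateField ℂ K) (y u h γ g : K) (j : ℤ),
    K0.FG ∧ Transcendental K0 y ∧ IntermediateField.adjoin K0 {y} = ⊤ ∧ u ∈ K0 ∧ γ ∈ K0 ∧
    γ ≠ 0 ∧ y ≠ 0 ∧ h ≠ 0 ∧ j ≠ 0 ∧ φ * h ^ q = γ * y ^ j ∧ c = h * C.J y u / y ∧
    A = algebraMap ℂ K b * q / j * h * C.D 0 u + (C.D 0 g + g * C.D 0 φ / (q * φ)) ∧
    B = algebraMap ℂ K b * q / j * h * C.D 1 u + (C.D 1 g + g * C.D 1 φ / (q * φ))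

theorem jg_one (C : Co K) {q : ℕ} (hq : 0 < q) {φ A B : K} {b : ℂ} (hφ : φ ≠ 0) (hb : b ≠ 0)
    (hd : C.D 0 B - C.D 1 A + (C.D 0 φ * B - C.D 1 φ * A) / (q * φ) = algebraMap ℂ K b)
    (V : Submodule ℂ K) [FiniteDimensional ℂ V]
    (hV : IntermediateField.adjoin ℂ (V : Set K) = ⊤)
    (hv : ∀ g ∈ V, B * C.D 0 g - A * C.D 1 g ∈ V) : Frame C q φ 1 A B b := by
  classical
  have : CharZero K := charZero
  have hq0 : (q : K) ≠ 0 := Nat.cast_ne_zero.2 hq.ne'
  have hb0 : algebraMap ℂ K b ≠ 0 := by simpa using hb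
  set β := algebraMap ℂ K b with hβ
  let v := C.vf B (-A)
  have hvg : ∀ g, v g = B * C.D 0 g - A * C.D 1 g := fun g => by
    rw [Co.vf_apply]; ring
  have hv0 : v (C.s 0) = B := C.vf_s0 _ _
  have hv1 : v (C.s 1) = -A := C.vf_s1 _ _
  have hdv : v φ + q * C.dv v * φ = q * β * φ := by
    rw [Co.dv, hv0, hv1, hvg, map_neg, ← hd]
    field_simp
    ring
  obtain ⟨T, wt, hT, hwt⟩ := exists_gens v V hV (fun g hg => by rw [hvg]; exact hv g hg)
  obtain ⟨π, m, hm, hπb, hπ⟩ := exists_add (T.image wt) hb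
  have hm0 : (m : K) ≠ 0 := Int.cast_ne_zero.2 hm
  obtain ⟨v', hv'⟩ := exists_ss v π (fun z => by
    have h1 : z ∈ IntermediateField.adjoin ℂ (T : Set K) := hT ▸ IntermediateField.mem_top
    have h2 : Algebra.adjoin ℂ (T : Set K) ≤ lf v := Algebra.adjoin_le fun g hg =>
      (mem_lf v).2 (Submodule.mem_iSup_of_mem _ (hwt g hg).2)
    obtain ⟨r, hr, s, hs, h⟩ := IntermediateField.mem_adjoin_iff_div.1 h1
    exact ⟨r, h2 hr, s, h2 hs, h⟩)
  -- the weight of the volume form
  have hdv' : v' φ + q * C.dv v' * φ = q * m * φ := by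
    obtain ⟨g1, h1, g2, h2, hJ⟩ := C.exists_J hT
    have e1 := (hwt g1 h1).2
    have e2 := (hwt g2 h2).2
    have e3 := E_pow v (C.J_mem v e1 e2) q
    have e4 : φ⁻¹ ∈ E v (-(q * C.dv v)) (-(q * b)) := by
      apply E_of_eq
      rw [Derivation.leibniz_inv, map_neg, map_mul, map_natCast, ← hβ, smul_eq_mul]
      field_simp
      linear_combination -hdv
    have e5 := E_mul v e3 e4
    rw [add_neg_cancel] at e5
    have e6 := hv' _ _ e5
    have e7 := C.J_lie v' g1 g2
    rw [hv' _ _ e1, hv' _ _ e2] at e7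
    have e8 : π ((q : ℂ) * (wt g1 + wt g2) + -((q : ℂ) * b)) =
        q * (π (wt g1) + π (wt g2)) - q * m := by
      rw [map_add, map_neg, ← nsmul_eq_mul, ← nsmul_eq_mul, map_nsmul, map_nsmul, map_add, hπb]
      simp only [nsmul_eq_mul]
      ring
    rw [e8] at e6
    simp only [map_sub, map_mul, map_add, map_natCast, map_intCast] at e6
    set a1 := algebraMap ℂ K (π (wt g1))
    set a2 := algebraMap ℂ K (π (wt g2))
    have e9 : C.J (a1 * g1) g2 + C.J g1 (a2 * g2) = (a1 + a2) * C.J g1 g2 := by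
      simp only [Co.J, a1, a2, Derivation.leibniz, Derivation.map_algebraMap, smul_eq_mul]
      ring
    rw [e9] at e7
    obtain ⟨q', rfl⟩ : ∃ q', q = q' + 1 := ⟨q - 1, by omega⟩
    rw [Derivation.leibniz, Derivation.leibniz_inv, Derivation.leibniz_pow,
      eq_sub_of_add_eq e7] at e6
    simp only [smul_eq_mul, nsmul_eq_mul, Nat.add_sub_cancel] at e6
    have hJ' : C.J g1 g2 ^ q' ≠ 0 := pow_ne_zero _ hJ
    rw [pow_succ] at e6
    field_simp at e6
    linear_combination -e6
  -- the two fields commute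
  have hcomm : ∀ x, v' (v x) = v (v' x) := fun x => by
    have := der_zero hT ⁅v', v⁆ (fun g hg => by
      have e1 := (hwt g hg).2
      rw [Derivation.commutator_apply, hv' _ _ (E_der v e1), hv' _ _ e1, Derivation.leibniz,
        Derivation.map_algebraMap]
      simp) x
    rw [Derivation.commutator_apply] at this
    exact sub_eq_zero.1 this
  obtain ⟨y, d, hy, hdy, hdiv, htop, hfg⟩ := grading v' T hT (fun g hg => by
    obtain ⟨n, hn⟩ := hπ _ (Finset.mem_image_of_mem wt hg)
    exact ⟨(hwt g hg).1, n, by rw [hv' _ _ (hwt g hg).2, hn, map_intCast]⟩)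
  have hd0 : d ≠ 0 := by
    rintro rfl
    have hz : ∀ x, v' x = 0 := der_zero hT v' fun g hg => by
      obtain ⟨n, hn⟩ := hπ _ (Finset.mem_image_of_mem wt hg)
      have e1 : v' g = n * g := by rw [hv' _ _ (hwt g hg).2, hn, map_intCast]
      have := hdiv g (hwt g hg).1 n e1
      rw [e1, zero_dvd_iff.1 this]
      simp
    rw [Co.dv, hz, hz, hz] at hdv'
    simp only [map_zero, add_zero, mul_zero, zero_mul] at hdv'
    exact mul_ne_zero (mul_ne_zero hq0 hm0) hφ hdv'.symm
  have hdK : (d : K) ≠ 0 := Int.cast_ne_zero.2 hd0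
  obtain ⟨u, hu, hJ⟩ : ∃ u ∈ kerF v', C.J y u ≠ 0 := by
    by_contra hc
    push Not at hc
    have h1 : ∀ z, C.vf (-C.D 1 y) (C.D 0 y) z = 0 := by
      refine der_zero (T := (kerF v' : Set K) ∪ {y}) ?_ _ ?_
      · rw [← IntermediateField.restrictScalars_adjoin, htop]; rfl
      · rintro g (hg | rfl)
        · rw [← Co.J_eq]; exact hc g hg
        · rw [← Co.J_eq, Co.J]; ring
    have h2 := h1 (C.s 0)
    have h3 := h1 (C.s 1)
    rw [Co.vf_s0, neg_eq_zero] at h2
    rw [Co.vf_s1] at h3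
    have := C.span v' y
    rw [h2, h3, hdy] at this
    simp [hy, hd0] at this
  have hu0 : v' u = 0 := hu
  have hJw : v' (C.J y u) = (d - C.dv v') * C.J y u := by
    have := C.J_lie v' y u
    rw [hdy, hu0] at this
    simp only [Co.J, Derivation.leibniz, Derivation.map_intCast, smul_eq_mul, map_zero] at this ⊢
    linear_combination this
  set h := y / C.J y u with hh
  have hh0 : h ≠ 0 := div_ne_zero hy hJ
  have hhw : v' h = C.dv v' * h := by
    rw [hh, Derivation.leibniz_div, hJw, hdy]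
    simp only [smul_eq_mul]
    field_simp
    ring
  have hψ : v' (φ * h ^ q) = ((q * m : ℤ) : K) * (φ * h ^ q) := by
    have := der_zpow v' hh0 hhw q
    rw [zpow_natCast] at this
    rw [Derivation.leibniz, this]
    push_cast
    simp only [smul_eq_mul]
    linear_combination h ^ q * hdv'
  obtain ⟨j, hj⟩ := hdiv _ (mul_ne_zero hφ (pow_ne_zero _ hh0)) _ hψ
  have hjK : (q : K) * m = d * j := by exact_mod_cast congrArg (Int.cast : ℤ → K) hj
  have hj0 : j ≠ 0 := by
    rintro rfl
    exact mul_ne_zero hq0 hm0 (by simpa using hjK)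
  have hjK0 : (j : K) ≠ 0 := Int.cast_ne_zero.2 hj0
  have hγ : v' (φ * h ^ q * y ^ (-j)) = 0 := by
    rw [Derivation.leibniz, der_zpow v' hy hdy, hψ]
    push_cast
    simp only [smul_eq_mul]
    linear_combination (φ * h ^ q * y ^ (-j)) * hjK
  -- components
  set a0 := v' (C.s 0) with ha0
  set a1 := v' (C.s 1) with ha1
  have s1 := C.span v' y
  have s2 := C.span v' u
  rw [← ha0, ← ha1, hdy] at s1
  rw [← ha0, ← ha1, hu0] at s2
  have c0 : a0 = d * h * C.D 1 u := by
    rw [hh]
    field_simp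
    rw [Co.J]
    linear_combination (-C.D 1 u) * s1 + C.D 1 y * s2
  have c1 : a1 = -(d * h * C.D 0 u) := by
    rw [hh]
    field_simp
    rw [Co.J]
    linear_combination (C.D 0 u) * s1 - C.D 0 y * s2
  have k0 := hcomm (C.s 0)
  have k1 := hcomm (C.s 1)
  rw [hv0, ← ha0, hvg, C.span v' B, ← ha0, ← ha1] at k0
  rw [hv1, ← ha1, hvg, C.span v' (-A), ← ha0, ← ha1, map_neg, map_neg] at k1
  rw [Co.dv, ← ha0, ← ha1, C.span v' φ, ← ha0, ← ha1] at hdv'
  have hd' : (q * φ) * (C.D 0 B - C.D 1 A) + (C.D 0 φ * B - C.D 1 φ * A) = q * φ * β := by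
    rw [← hd]; field_simp
  have hmi : ∀ i, C.D i (m : K)⁻¹ = 0 := fun i => by
    simp [Derivation.leibniz_inv]
  have c0' : β * q / j * h * C.D 1 u = β / m * a0 := by
    rw [c0]; field_simp; linear_combination (C.D 1 u) * hjK
  have c1' : β * q / j * h * C.D 0 u = -(β / m * a1) := by
    rw [c1]; field_simp; linear_combination (C.D 0 u) * hjK
  refine ⟨kerF v', y, u, h, φ * h ^ q * y ^ (-j), (m : K)⁻¹ * (B * a1 + A * a0), j, hfg hd0,
    transc hy hd0 hdy, htop, hu, hγ,
    mul_ne_zero (mul_ne_zero hφ (pow_ne_zero _ hh0)) (zpow_ne_zero _ hy), hy, hh0, hj0, ?_, ?_,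
    ?_, ?_⟩
  · rw [mul_assoc (φ * h ^ q), ← zpow_add₀ hy, neg_add_cancel, zpow_zero, mul_one]
  · rw [hh]; field_simp
  · rw [← hβ, c1']
    simp only [Derivation.leibniz, map_add, hmi, smul_eq_mul]
    field_simp
    linear_combination -A * hdv' - a1 * hd' + q * φ * k1
  · rw [← hβ, c0']
    simp only [Derivation.leibniz, map_add, hmi, smul_eq_mul]
    field_simp
    linear_combination -B * hdv' + a0 * hd' - q * φ * k0

/-- A twisted one-form whose differential is a non-zero multiple of the volume form, and whose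
dual vector field preserves a finite-dimensional generating space, is in product form. -/
theorem jg (C : Co K) {q : ℕ} (hq : 0 < q) {φ c A B : K} {b : ℂ} (hφ : φ ≠ 0) (hc : c ≠ 0)
    (hb : b ≠ 0)
    (hd : C.D 0 B - C.D 1 A + (C.D 0 φ * B - C.D 1 φ * A) / (q * φ) = algebraMap ℂ K b * c)
    (V : Submodule ℂ K) [FiniteDimensional ℂ V]
    (hV : IntermediateField.adjoin ℂ (V : Set K) = ⊤)
    (hv : ∀ g ∈ V, (B * C.D 0 g - A * C.D 1 g) / c ∈ V) : Frame C q φ c A B b := by
  have : CharZero K := charZero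
  have hq0 : (q : K) ≠ 0 := Nat.cast_ne_zero.2 hq.ne'
  have hp : ∀ i, C.D i (φ * c ^ q) = c ^ q * (C.D i φ + q * φ * C.D i c / c) := fun i => by
    have := der_zpow (C.D i) hc (a := C.D i c / c) (by field_simp) q
    rw [zpow_natCast] at this
    rw [Derivation.leibniz, this]
    push_cast
    simp only [smul_eq_mul]
    ring
  have hcq : c ^ q ≠ 0 := pow_ne_zero _ hc
  obtain ⟨K0, y, u, h, γ, g, j, h1, h2, h3, h4, h5, h6, h7, h8, h9, e1, e2, e3, e4⟩ :=
    jg_one C hq (φ := φ * c ^ q) (A := A / c) (B := B / c) (mul_ne_zero hφ hcq) hb (by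
      rw [hp, hp, Derivation.leibniz_div, Derivation.leibniz_div]
      simp only [smul_eq_mul]
      field_simp at hd ⊢
      linear_combination c * hd) V hV (fun g hg => by
      have := hv g hg
      rwa [sub_div, mul_div_right_comm, mul_div_right_comm] at this)
  refine ⟨K0, y, u, c * h, γ, c * g, j, h1, h2, h3, h4, h5, h6, h7, mul_ne_zero hc h8, h9, ?_, ?_,
    ?_, ?_⟩
  · rw [← e1, mul_pow, mul_assoc]
  · rw [mul_assoc, mul_div_assoc, ← e2, mul_one]
  · rw [hp, div_eq_iff hc] at e3
    rw [e3, Derivation.leibniz]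
    simp only [smul_eq_mul]
    field_simp
    ring
  · rw [hp, div_eq_iff hc] at e4
    rw [e4, Derivation.leibniz]
    simp only [smul_eq_mul]
    field_simp
    ring

end

end Pool.Agent.MP_ee8c61_ag.M3J
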