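import Pool.Agent.MP_ee8c61_ag.M3J.Core
import Pool.Agent.MP_ee8c61_ag.M3S.SpecF
import Pool.Agent.MP_ee8c61_ag.M3V.Spec
import Pool.Agent.MP_ee8c61_ag.M3SN.RL1

/-!
Potentials on a smooth projective surface: adapted coordinates at curves, exponents, gluing.
-/

namespace Pool.Agent.MP_ee8c61_ag.M3J

open M3 M3RESID M3F M3S Pool.Agent.MP_96693b_ag.RS Pool.Agent.MP_cce4c9_lc.H87 WithZero Filter

noncomputable section

variable {K : Type} [Field K] [Algebra ℂ K]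

/-- The valuation of a place. -/
def dvP (v : Place ℂ K) : DV K where
  v := v.ord
  zero := v.ord_zero
  mul g h hg hh := v.ord_mul (v.val_ne hg) (v.val_ne hh)
  add g h hg hh hgh := by
    rw [← neg_neg (min _ _), ← v.val_le_exp (v.val_ne hgh)]
    refine (v.val.map_add g h).trans (max_le ?_ ?_)
    · rw [v.val_le_exp (v.val_ne hg), neg_neg]; exact min_le_left _ _
    · rw [v.val_le_exp (v.val_ne hh), neg_neg]; exact min_le_right _ _

theorem dvP_v (v : Place ℂ K) (g : K) : (dvP v).v g = v.ord g := rfl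

theorem mem_dvP {v : Place ℂ K} {m : ℤ} {g : K} : g ∈ (dvP v).F m ↔ v.val g ≤ exp (-m) := by
  by_cases h : g = 0
  · simp [h]
  · rw [v.val_le_exp (v.val_ne h), neg_neg, DV.mem_F, dvP_v]
    simp [h]

theorem mem_dvP0 {v : Place ℂ K} {g : K} : g ∈ (dvP v).F 0 ↔ v.val g ≤ 1 := by
  rw [mem_dvP]; rfl

variable {M : Model K 2}

/-- The valuation of a curve. -/
abbrev oC (Γ : Crv M) : DV K := dvP Γ.1

/-- A coordinate system at a point as a frame of the field. -/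
def coOf (hM : TrdS M) {p : M.P} {κ : Chart K 2} (h : IsCrd (M.loc p) κ) : M3RESID.Co K 2 where
  z := κ.x
  D := κ.D
  ne := h.x_ne_zero
  dual := h.dual
  span v hv := Derivation.ext fun f => by rw [hM.der p κ h v f, hv, hv]; simp

theorem at_of {o : DV K} (hc : ∀ c : ℂ, algebraMap ℂ K c ∈ o.F 0) {X Y : VF K} {η y : K}
    (hX : Reg o X) (hY : Reg o Y) (h0 : η ≠ 0) (hη : o.v η = 1) (y0 : y ≠ 0) (hy : o.v y = 0)
    (e0 : X y = 0) (e1 : Y y = 1) (x0 : X η ≠ 0) (hx : o.v (X η) = 0)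
    (hs : ∀ δ : VF K, δ η = 0 → δ y = 0 → δ = 0) : ∃ C' : M3RESID.Co K 2, C'.At o 0 := by
  have hi : (X η)⁻¹ ∈ o.F 0 := Or.inr (by rw [o.inv, hx]; simp)
  have hηF : η ∈ o.F 0 := Or.inr (by omega)
  refine ⟨⟨![η, y], ![(X η)⁻¹ • X, Y - (Y η * (X η)⁻¹) • X], ?_, ?_, ?_⟩, hc, ?_, ?_⟩
  · intro i; fin_cases i <;> simpa
  · intro i j
    fin_cases i <;> fin_cases j <;> simp [e0, e1, x0]
  · intro δ hδ
    exact hs δ (hδ 0) (hδ 1)
  · intro j; fin_cases j <;> simpa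
  · intro j g hg
    fin_cases j
    · exact F_mul' hi (hX g hg) (by omega)
    · exact sub_mem (hY g hg) (F_mul' (F_mul' (hY η hηF) hi (k := 0) (by omega)) (hX g hg)
        (by omega))

theorem reg_D (hM : LocA M) {Γ : Crv M} {p : M.P} (hp : On Γ p) {κ : Chart K 2}
    (h : IsCrd (M.loc p) κ) (i : Fin 2) : Reg (oC Γ) (κ.D i) := fun g hg =>
  mem_dvP0.2 (hM.pres Γ p hp _ (h.pres i) g (mem_dvP0.1 hg))

theorem const_F (v : Place ℂ K) (c : ℂ) : algebraMap ℂ K c ∈ (dvP v).F 0 :=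
  mem_dvP0.2 (v.const_le c)

theorem exists_At (hM : B1 M) (Γ : Crv M) : ∃ C' : M3RESID.Co K 2, C'.At (oC Γ) 0 := by
  obtain ⟨p, hp, -⟩ := Γ.2
  obtain ⟨κ, hκ⟩ := M.smooth _ p.2
  replace hκ : IsCrd (M.loc p) κ := hκ
  obtain ⟨η, hO, ⟨h0, hE⟩, hdiv⟩ := hM.eqn1 Γ p hp
  have hv : Γ.1.ord η = 1 := by
    have := hE Γ hp
    rw [Finsupp.single_eq_same] at this
    exact_mod_cast this
  have hlt : Γ.1.val η < 1 := (Γ.1.val_lt_one (Γ.1.val_ne h0)).2 (by omega)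
  obtain ⟨i, hi⟩ : ∃ i, Γ.1.val (κ.D i η) = 1 := by
    by_contra hc
    push Not at hc
    have h1 : ∀ i, Γ.1.val (κ.D i η) < 1 := fun i =>
      lt_of_le_of_ne (hp _ (hκ.pres i η hO)) (hc i)
    have h2 : ∀ l : List (Fin 2), ders (l.map κ.D) η ∈ (M.loc p).O ∧
        Γ.1.val (ders (l.map κ.D) η) < 1 := by
      intro l
      induction l with
      | nil => exact ⟨hO, hlt⟩
      | cons i l ih =>
        rw [List.map_cons, ders_cons]
        refine ⟨hκ.pres i _ ih.1, ?_⟩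
        have h3 := hdiv _ ih.1 ih.2
        have e : ders (l.map κ.D) η = η * (ders (l.map κ.D) η / η) := by field_simp
        rw [e, Derivation.leibniz, smul_eq_mul, smul_eq_mul]
        refine lt_of_le_of_lt (Γ.1.val.map_add _ _) (max_lt ?_ ?_)
        · rw [map_mul]
          exact mul_lt_one_of_lt_of_le hlt (hp _ (hκ.pres i _ h3))
        · rw [map_mul, mul_comm]
          exact mul_lt_one_of_lt_of_le (h1 i) (hp _ h3)
    apply h0
    have : η ∈ (⊥ : Submodule (M.loc p).O K) := Loc.krull bot_le fun e => by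
      by_contra hn
      rw [← Chart.I_empty (κ := κ)] at hn
      obtain ⟨l, -, -, h4⟩ := hκ.exists_ders_unit hO hn
      exact h4 (hM.evz Γ p hp _ (h2 l).1 (h2 l).2)
    simpa using this
  have hu : ∀ j, 1 + κ.x j ≠ 0 ∧ Γ.1.ord (1 + κ.x j) = 0 := fun j => by
    have h1 : (M.loc p).ev (1 + κ.x j) ≠ 0 := by
      rw [(M.loc p).ev_add _ (one_mem _) _ (hκ.x_mem j), (hκ.x_mem_m j).2, Loc.ev_one]
      simp
    have h2 := (hM.unit p _).1 h1 Γ hp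
    exact ⟨fun e => by simp [e] at h2, Γ.1.ord_of_val_one h2⟩
  have hne : κ.D i η ≠ 0 := fun e => by simp [e] at hi
  have hd := hM.der p κ hκ
  fin_cases i
  · refine at_of (const_F _) (reg_D hM.toLocA hp hκ 0) (reg_D hM.toLocA hp hκ 1) h0 hv (hu 1).1
      (hu 1).2 (by simp [hκ.dual]) (by simp [hκ.dual]) hne (Γ.1.ord_of_val_one hi)
      fun δ e1 e2 => ?_
    have e3 : δ (κ.x 1) = 0 := by simpa using e2
    have e4 := hd δ η
    rw [e1, e3, zero_mul, add_zero] at e4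
    have e5 := (mul_eq_zero.1 e4.symm).resolve_right hne
    exact Derivation.ext fun f => by rw [hd δ f, e3, e5]; simp
  · refine at_of (const_F _) (reg_D hM.toLocA hp hκ 1) (reg_D hM.toLocA hp hκ 0) h0 hv (hu 0).1
      (hu 0).2 (by simp [hκ.dual]) (by simp [hκ.dual]) hne (Γ.1.ord_of_val_one hi)
      fun δ e1 e2 => ?_
    have e3 : δ (κ.x 0) = 0 := by simpa using e2
    have e4 := hd δ η
    rw [e1, e3, zero_mul, zero_add] at e4
    have e5 := (mul_eq_zero.1 e4.symm).resolve_right hne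
    exact Derivation.ext fun f => by rw [hd δ f, e3, e5]; simp

/-- The Jacobian of the reference frame in the coordinates `C`. -/
def rho (C : M3RESID.Co K 2) : K := br C (r0 K 0) (r0 K 1)

theorem v_unit {o : DV K} {x y : K} (hx : x ∈ o.F 0) (hy : y ∈ o.F 0) (h : x * y = 1) :
    o.v x = 0 := by
  have x0 : x ≠ 0 := left_ne_zero_of_mul_eq_one h
  have y0 : y ≠ 0 := right_ne_zero_of_mul_eq_one h
  have h1 := o.mul x y x0 y0
  rw [h, o.one] at h1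
  have := hx.resolve_left x0
  have := hy.resolve_left y0
  omega

theorem rho_At (hM : B2 M) {Γ : Crv M} {C' : M3RESID.Co K 2} (hA : C'.At (oC Γ) 0) :
    rho C' ≠ 0 ∧ (Γ.1.ord (rho C') : ℝ) = KD M Γ := by
  obtain ⟨p, hp, -⟩ := Γ.2
  obtain ⟨κ, hκ⟩ := M.smooth _ p.2
  replace hκ : IsCrd (M.loc p) κ := hκ
  let C := coOf hM.toTrdS hκ
  have e0 : rho C = jac κ (r0 K) := by
    simp only [rho, br, jac, C, coOf]
    ring
  have e1 : rho C = br C (C'.z 0) (C'.z 1) * rho C' := br_chain C C' _ _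
  have e2 : br C (C'.z 0) (C'.z 1) * br C' (C.z 0) (C.z 1) = 1 := by
    rw [← br_chain, br_self]
  have hne : rho C ≠ 0 := e0 ▸ hM.jne p κ hκ _ hM.ind
  have hx : ∀ j, C.z j ∈ (oC Γ).F 0 := fun j => mem_dvP0.2 (hp _ (hκ.x_mem j))
  have hz0 : C'.z 0 ∈ (oC Γ).F 0 := (oC Γ).F_anti (by omega) (z0_F hA)
  have hD := reg_D hM.toLocA hp hκ
  have h1 : br C (C'.z 0) (C'.z 1) ∈ (oC Γ).F 0 :=
    sub_mem (F_mul' (hD 0 _ hz0) (hD 1 _ (z1_F hA)) (by omega))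
      (F_mul' (hD 1 _ hz0) (hD 0 _ (z1_F hA)) (by omega))
  have h2 : br C' (C.z 0) (C.z 1) ∈ (oC Γ).F 0 :=
    sub_mem (F_mul' (hA.D 0 _ (hx 0)) (hA.D 1 _ (hx 1)) (by omega))
      (F_mul' (hA.D 1 _ (hx 0)) (hA.D 0 _ (hx 1)) (by omega))
  have h3 := v_unit h1 h2 e2
  have h4 : rho C' ≠ 0 := fun e => hne (by rw [e1, e, mul_zero])
  refine ⟨h4, ?_⟩
  rw [hM.kC Γ κ p hκ hp, ← e0, e1, ← dvP_v, ← dvP_v, (oC Γ).mul _ _ (br_ne C C') h4, h3, zero_add]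

theorem rho_ne (hM : B2 M) (C : M3RESID.Co K 2) : rho C ≠ 0 := by
  obtain ⟨u, hu, u0⟩ := M.nz
  obtain ⟨p, -⟩ := hM.cen ⊤ u hu u0 (fun _ _ => trivial) 1 (one_mem _) one_ne_zero trivial
  obtain ⟨κ, hκ⟩ := M.smooth _ p.2
  replace hκ : IsCrd (M.loc p) κ := hκ
  have e0 : rho (coOf hM.toTrdS hκ) = jac κ (r0 K) := by
    simp only [rho, br, jac, coOf]
    ring
  have e1 : rho C = _ * rho (coOf hM.toTrdS hκ) := br_chain C _ _ _
  rw [e1, e0]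
  exact mul_ne_zero (br_ne _ _) (hM.jne p κ hκ _ hM.ind)

theorem ord_br (hM : B2 M) (C : M3RESID.Co K 2) {Γ : Crv M} {C' : M3RESID.Co K 2}
    (hA : C'.At (oC Γ) 0) :
    (Γ.1.ord (br C (C'.z 0) (C'.z 1)) : ℝ) = Γ.1.ord (rho C) - KD M Γ := by
  obtain ⟨h1, h2⟩ := rho_At hM hA
  have e1 : rho C = br C (C'.z 0) (C'.z 1) * rho C' := br_chain C C' _ _
  rw [← h2, e1, ← dvP_v _ (_ * _), (oC Γ).mul _ _ (br_ne C C') h1, dvP_v, dvP_v]
  push_cast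
  ring

/-- The lattice of potentials in terms of the canonical divisor. -/
theorem mem_LB_iff (hM : B2 M) (C : M3RESID.Co K 2) (Γ : Crv M) (c : ℤ) (t : K) :
    t ∈ LB C (oC Γ) c ↔ Γ.1.val (t * rho C) ≤ exp ⌊-((c : ℝ) + 1) - KD M Γ⌋ := by
  obtain ⟨C', hA⟩ := exists_At hM.toB1 Γ
  by_cases h0 : t = 0
  · simp [h0]
  have h1 := ord_br hM C hA
  have hρ := rho_ne hM C
  rw [mem_LB hA, mem_dvP, Γ.1.val_le_exp (Γ.1.val_ne (mul_ne_zero h0 (br_ne C C'))),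
    Γ.1.val_le_exp (Γ.1.val_ne (mul_ne_zero h0 hρ)),
    Γ.1.ord_mul (Γ.1.val_ne h0) (Γ.1.val_ne (br_ne C C')),
    Γ.1.ord_mul (Γ.1.val_ne h0) (Γ.1.val_ne hρ), neg_neg, neg_le, Int.le_floor,
    ← Int.cast_le (R := ℝ)]
  push_cast
  rw [h1]
  constructor <;> intro h <;> linarith

theorem dlog_F {C' : M3RESID.Co K 2} {o : DV K} (hA : C'.At o 0) {g : K} (hg : g ≠ 0) :
    C'.z 0 * C'.D 0 g / g - (o.v g : K) ∈ o.F 1 := by
  have h1 := th_F hA (o.mem_F_self g)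
  have h2 : g⁻¹ ∈ o.F (-o.v g) := F_of_eq (o.mem_F_self _) (o.inv g)
  have := F_mul' h1 h2 (k := 1) (by omega)
  have e : (C'.z 0 * C'.D 0 g - (o.v g : K) * g) * g⁻¹ = C'.z 0 * C'.D 0 g / g - (o.v g : K) := by
    field_simp
  rwa [e] at this

theorem lead_At {C C' : M3RESID.Co K 2} {o : DV K} (hA : C'.At o 0) {d : Dv K} {q : ℕ} {ψ : K}
    (hq : 0 < q) (hψ : ψ ≠ 0) (hd : ∀ X, d.δ X = C.dv.δ X + X ψ / (q * ψ)) :
    C'.z 0 * d.δ (C'.D 0) -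
      algebraMap ℂ K (-(o.v (br C (C'.z 0) (C'.z 1)) : ℂ) + o.v ψ / q) ∈ o.F 1 := by
  have : CharZero K := charZero_of_injective_algebraMap (algebraMap ℂ K).injective
  have hq0 : (q : K) ≠ 0 := Nat.cast_ne_zero.2 hq.ne'
  have hF : M3H47.Fr C.z C.D := ⟨C.dual, fun t a => ap2 C t a⟩
  have h1 := hF.jac_der (C'.D 0) (C'.z 0) (C'.z 1)
  have hj := br_ne C C'
  have h2 : C.dv.δ (C'.D 0) = -(C'.D 0 (br C (C'.z 0) (C'.z 1)) / br C (C'.z 0) (C'.z 1)) := by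
    have e : C.dv.δ (C'.D 0) = M3H47.dv0 C.z C.D (C'.D 0) := by
      change ∑ i, C.D i (C'.D 0 (C.z i)) = _
      rw [Fin.sum_univ_two]; rfl
    have e2 : M3H47.Jac C.D (C'.D 0 (C'.z 0)) (C'.z 1) +
        M3H47.Jac C.D (C'.z 0) (C'.D 0 (C'.z 1)) = 0 := by simp [M3H47.Jac, C'.dual]
    rw [e2] at h1
    change C'.D 0 (br C _ _) + _ * br C _ _ = 0 at h1
    rw [e]
    field_simp
    linear_combination h1
  have h3 := dlog_F hA hj
  have h4 := F_mul' (hA.cst (q : ℂ)⁻¹) (dlog_F hA hψ) (k := 1) (by omega)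
  have h5 := sub_mem h4 h3
  refine (congrArg (· ∈ o.F 1) ?_).mp h5
  rw [hd, h2]
  simp only [map_add, map_neg, map_div₀, map_intCast, map_natCast, map_inv₀]
  field_simp
  ring

/-- The exponents in terms of the canonical divisor. -/
theorem exp_eq (hM : B2 M) {C : M3RESID.Co K 2} {d : Dv K} {q : ℕ} {ψ : K} (hq : 0 < q)
    (hψ : ψ ≠ 0) (hd : ∀ X, d.δ X = C.dv.δ X + X ψ / (q * ψ)) {Γ : Crv M} {a : ℚ}
    (hE : Exp d (oC Γ) a) :
    (a : ℝ) - 1 = KD M Γ - Γ.1.ord (rho C) + Γ.1.ord ψ / q := by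
  obtain ⟨C', hA⟩ := exists_At hM.toB1 Γ
  have h1 := sub_mem (lead_At hA hq hψ hd) (dv_D0 hA hE)
  set z : ℂ := (a : ℂ) - 1 - (-((oC Γ).v (br C (C'.z 0) (C'.z 1)) : ℂ) + (oC Γ).v ψ / q) with hz
  have h2 : algebraMap ℂ K z ∈ (oC Γ).F 1 := by
    refine (congrArg (· ∈ (oC Γ).F 1) ?_).mp h1
    rw [hz, map_sub, map_sub, map_one]
    ring
  have h3 : z = 0 := by
    by_contra h
    have := h2.resolve_left ((map_ne_zero _).2 h)
    rw [v_const hA.cst h] at this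
    omega
  have h4 : (((a : ℝ) - 1 - (-(Γ.1.ord (br C (C'.z 0) (C'.z 1)) : ℝ) + Γ.1.ord ψ / q) : ℝ) : ℂ)
      = 0 := by
    refine Eq.trans ?_ h3
    rw [hz]
    push_cast
    rfl
  have h5 := Complex.ofReal_eq_zero.1 h4
  rw [ord_br hM C hA] at h5
  linarith

/-- Gluing of principal parts along curves. -/
theorem glue (hM : B1 M) {Λ : Dr M} {η : M.P → K} (hη : ∀ p, Eqn Λ p (η p)) (hML : M3V.ML M η)
    (t : Crv M → K) (hfin : {Γ | ¬Γ.1.val (t Γ) ≤ exp ⌊Λ Γ⌋}.Finite)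
    (hloc : ∀ p, ∃ θ, ∀ Γ, On Γ p → Γ.1.val (θ - t Γ) ≤ exp ⌊Λ Γ⌋) :
    ∃ f, ∀ Γ, Γ.1.val (f - t Γ) ≤ exp ⌊Λ Γ⌋ := by
  choose θ hθ using hloc
  obtain ⟨G, hG⟩ := hML θ fun a => by
    have hB : {Γ : Crv M | ¬On Γ a ∧ (¬Γ.1.val (t Γ) ≤ exp ⌊Λ Γ⌋ ∨ Γ.1.ord (θ a) ≠ 0 ∨
        Λ Γ ≠ 0)}.Finite :=
      (hfin.union ((hM.fin (θ a)).union Λ.hasFiniteSupport)).subset fun Γ h => h.2
    filter_upwards [(eventually_all_finite hB).2 fun Γ h => hM.spo Γ a h.1] with b hb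
    refine (hM.memL Λ b _ (hη b) _).1 fun Γ hΓ => ?_
    by_cases h : On Γ a
    · rw [show θ a - θ b = θ a - t Γ - (θ b - t Γ) by ring]
      exact (Γ.1.val.map_sub _ _).trans (max_le (hθ a Γ h) (hθ b Γ hΓ))
    · have h1 : ¬(¬Γ.1.val (t Γ) ≤ exp ⌊Λ Γ⌋ ∨ Γ.1.ord (θ a) ≠ 0 ∨ Λ Γ ≠ 0) :=
        fun h2 => hb Γ ⟨h, h2⟩ hΓ
      push Not at h1
      have h2 : Γ.1.val (θ a) ≤ exp ⌊Λ Γ⌋ := by
        by_cases h0 : θ a = 0
        · simp [h0]
        · rw [Γ.1.val_le_exp (Γ.1.val_ne h0), h1.2.1, h1.2.2]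
          simp
      rw [show θ a - θ b = θ a - t Γ - (θ b - t Γ) by ring]
      exact (Γ.1.val.map_sub _ _).trans (max_le
        ((Γ.1.val.map_sub _ _).trans (max_le h2 h1.1)) (hθ b Γ hΓ))
  refine ⟨G, fun Γ => ?_⟩
  obtain ⟨p, hp, -⟩ := Γ.2
  rw [show G - t Γ = G - θ p + (θ p - t Γ) by ring]
  exact (Γ.1.val.map_add _ _).trans
    (max_le ((hM.memL Λ p _ (hη p) _).2 (hG p) Γ hp) (hθ p Γ hp))

/-- Sections are determined away from a negative definite configuration orthogonal to `D`. -/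
theorem mem_H0_off (hM : Fnd M) {S : Finset (Crv M)} (hS : M3SN.NegDef (II M) S) {D : Dr M}
    (hD : ∀ G ∈ S, II M D (pr G) ≤ 0) (g : K) :
    g ∈ H0 D ↔ ∀ Γ : Crv M, Γ ∉ S → Γ.1.val g ≤ exp ⌊D Γ⌋ := by
  refine ⟨fun h Γ _ => h Γ, fun h => ?_⟩
  by_cases h0 : g = 0
  · rw [h0]; exact zero_mem _
  have := (M3SN.rowL1.1 _ (II M) S (dvr M g + D) ⟨hM.sym, hM.off⟩ hS (fun Γ hΓ => by
    have h1 := h Γ hΓ
    rw [Γ.1.val_le_exp (Γ.1.val_ne h0), neg_le, Int.le_floor, Int.cast_neg] at h1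
    rw [Finsupp.add_apply, hM.dva]
    linarith) (fun G hG => by
      have h1 := hM.num g G h0
      have h2 := hD G hG
      change II M (dvr M g + D) (pr G) ≤ 0
      rw [map_add, LinearMap.add_apply, h1, zero_add]
      exact h2)).1
  rw [mem_H0 h0]
  intro Γ
  have h3 := this Γ
  rwa [Finsupp.add_apply, hM.dva] at h3

end

end Pool.Agent.MP_ee8c61_ag.M3J
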