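import Pool.Agent.MP_ee8c61_ag.M3J.VQ

/-!
A nef and big divisor with positive coefficients on the core curves.
-/

namespace Pool.Agent.MP_ee8c61_ag.M3J

open Finset

section Lat

open M3SN

variable {ι : Type} {I : Fm ι}

theorem exists_eps {κ : Type} (F : Finset κ) (u w : κ → ℝ)
    (h : ∀ C ∈ F, 0 ≤ u C ∧ (w C < 0 → 0 < u C)) :
    ∃ ε : ℚ, 0 < ε ∧ ∀ ε' : ℝ, 0 ≤ ε' → ε' ≤ ε → ∀ C ∈ F, 0 ≤ u C + ε' * w C := by
  classical
  induction F using Finset.induction_on with
  | empty => exact ⟨1, one_pos, by simp⟩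
  | insert a F _ ih =>
    obtain ⟨ε, h0, h1⟩ := ih fun C hC => h C (mem_insert_of_mem hC)
    obtain ⟨h2, h3⟩ := h a (mem_insert_self _ _)
    by_cases hw : w a < 0
    · obtain ⟨r, hr0, hr⟩ := exists_rat_btwn (div_pos (h3 hw) (neg_pos.2 hw))
      have hr0' : 0 < r := by exact_mod_cast hr0
      refine ⟨min ε r, lt_min h0 hr0', fun ε' e0 e1 C hC => ?_⟩
      rw [Rat.cast_min, le_min_iff] at e1
      rcases mem_insert.1 hC with rfl | hC
      · have := (le_div_iff₀ (neg_pos.2 hw)).1 (e1.2.trans hr.le)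
        linarith
      · exact h1 ε' e0 e1.1 C hC
    · refine ⟨ε, h0, fun ε' e0 e1 C hC => ?_⟩
      rcases mem_insert.1 hC with rfl | hC
      · exact add_nonneg h2 (mul_nonneg e0 (not_lt.1 hw))
      · exact h1 ε' e0 e1 C hC

theorem I_sum {A : Type} [Fintype A] (β : A → ι →₀ ℝ) (x : A → ℝ) (E : ι →₀ ℝ) :
    I (∑ k, x k • β k) E = ∑ k, x k * I (β k) E := by
  simp [map_sum, LinearMap.sum_apply]

theorem nef_q (L : Lat0 I) {A : Type} [Fintype A] (β : A → ι →₀ ℝ) (hβ : ∀ j, 0 ≤ β j)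
    (al : A → ℚ) (tr : ∀ C, I (∑ k, (al k : ℝ) • β k) (cv C) = 0)
    (cls : ∀ C, (∀ k, I (β k) (cv C) = 0) ∨ (∀ k, β k C = 0) ∨ ∃ j, (∀ k ≠ j, β k C = 0) ∧
      (al j = 0 → ∃ C' ≠ C, (∑ k, (al k : ℝ) • β k) C' ≠ 0 ∧ 0 < I (cv C') (cv C))) :
    ∃ q : A → ℚ, (∀ j, 0 < q j) ∧ Nef I (∑ k, (q k : ℝ) • β k) := by
  classical
  let u : ι → ℝ := fun C => ∑ k, |(al k : ℝ)| * I (β k) (cv C)
  let w : ι → ℝ := fun C => ∑ k, (if al k = 0 then 1 else 0) * I (β k) (cv C)
  have key : ∀ C, 0 ≤ u C ∧ (w C < 0 → 0 < u C) := fun C => by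
    rcases cls C with h | h | ⟨j, h, hz⟩
    · simp [u, w, h]
    · have h1 : ∀ k, 0 ≤ I (β k) (cv C) := fun k => L.eff_cv (hβ k) (h k)
      refine ⟨sum_nonneg fun k _ => mul_nonneg (abs_nonneg _) (h1 k), fun h2 => absurd h2 ?_⟩
      exact not_lt.2 (sum_nonneg fun k _ => mul_nonneg (by split_ifs <;> norm_num) (h1 k))
    · have h1 : ∀ k ≠ j, 0 ≤ I (β k) (cv C) := fun k hk => L.eff_cv (hβ k) (h k hk)
      have t := tr C
      rw [I_sum] at t
      by_cases e : al j = 0
      · obtain ⟨C', hne, h2, h3⟩ := hz e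
        obtain ⟨k, hk⟩ : ∃ k, (al k : ℝ) * β k C' ≠ 0 := by
          by_contra hn
          push Not at hn
          exact h2 (by simp [Finsupp.finsetSum_apply, hn])
        have k0 : (al k : ℝ) ≠ 0 := left_ne_zero_of_mul hk
        have kj : k ≠ j := fun e' => k0 (by rw [e', e]; simp)
        have h4 : 0 < I (β k) (cv C) := lt_of_lt_of_le
          (mul_pos (lt_of_le_of_ne (hβ k C') (right_ne_zero_of_mul hk).symm) h3)
          (RL1.term_le L (hβ k) (h k kj) C')
        have h5 : 0 < u C := sum_pos' (fun l _ => by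
          by_cases e' : l = j
          · rw [e', e]; simp
          · exact mul_nonneg (abs_nonneg _) (h1 l e')) ⟨k, mem_univ _, mul_pos (abs_pos.2 k0) h4⟩
        exact ⟨h5.le, fun _ => h5⟩
      · constructor
        · obtain ⟨s, hs, hs'⟩ : ∃ s : ℝ, s * al j = |(al j : ℝ)| ∧ |s| = 1 := by
            rcases le_total 0 (al j : ℝ) with h6 | h6
            · exact ⟨1, by rw [one_mul, abs_of_nonneg h6], abs_one⟩
            · exact ⟨-1, by rw [neg_one_mul, abs_of_nonpos h6], by simp⟩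
          have h6 : ∑ k, s * ((al k : ℝ) * I (β k) (cv C)) = 0 := by rw [← mul_sum, t, mul_zero]
          rw [← h6]
          refine sum_le_sum fun k _ => ?_
          rw [← mul_assoc]
          by_cases e' : k = j
          · rw [e', hs]
          · refine mul_le_mul_of_nonneg_right ?_ (h1 k e')
            exact (le_abs_self _).trans (by rw [abs_mul, hs', one_mul])
        · intro h2
          refine absurd h2 (not_lt.2 (sum_nonneg fun k _ => ?_))
          split_ifs with e'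
          · exact mul_nonneg zero_le_one (h1 k fun e2 => e (e2 ▸ e'))
          · simp
  obtain ⟨ε, h0, h1⟩ := exists_eps (univ.biUnion fun k => (β k).support) u w fun C _ => key C
  refine ⟨fun k => |al k| + ε * if al k = 0 then 1 else 0, fun k => ?_, fun C => ?_⟩
  · beta_reduce
    split_ifs with e
    · simp [e, h0]
    · simpa using e
  · have e : I (∑ k, ((|al k| + ε * if al k = 0 then 1 else 0 : ℚ) : ℝ) • β k) (cv C) =
        u C + ε * w C := by
      rw [I_sum, mul_sum, ← sum_add_distrib]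
      refine sum_congr rfl fun k _ => ?_
      split_ifs <;> push_cast <;> ring
    rw [e]
    by_cases hC : C ∈ univ.biUnion fun k => (β k).support
    · exact h1 ε (by exact_mod_cast h0.le) le_rfl C hC
    · have h2 : ∀ k, β k C = 0 := fun k => by
        by_contra h3
        exact hC (mem_biUnion.2 ⟨k, mem_univ _, Finsupp.mem_support_iff.2 h3⟩)
      refine add_nonneg (key C).1 (mul_nonneg (by exact_mod_cast h0.le) ?_)
      exact sum_nonneg fun k _ =>
        mul_nonneg (by split_ifs <;> norm_num) (L.eff_cv (hβ k) (h2 k))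

/-- Adding a small multiple of a nef and big combination. -/
theorem big_q (kle : ∀ P Q, Nef I P → Nef I Q → 0 ≤ I P Q) {A : Type} [Fintype A]
    (β : A → ι →₀ ℝ) {q e : A → ℚ} (hq : ∀ j, 0 < q j) (h1 : Nef I (∑ k, (q k : ℝ) • β k))
    (h2 : Nef I (∑ k, (e k : ℝ) • β k))
    (h3 : 0 < I (∑ k, (e k : ℝ) • β k) (∑ k, (e k : ℝ) • β k)) :
    ∃ r : A → ℚ, (∀ j, 0 < r j) ∧ Nef I (∑ k, (r k : ℝ) • β k) ∧
      0 < I (∑ k, (r k : ℝ) • β k) (∑ k, (r k : ℝ) • β k) := by
  have hq' : ∀ j, (0 : ℝ) < q j := fun j => by exact_mod_cast hq j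
  obtain ⟨ε, h0, h4⟩ := exists_eps univ (fun k => (q k : ℝ) / 2) (fun k => e k)
    fun k _ => ⟨(half_pos (hq' k)).le, fun _ => half_pos (hq' k)⟩
  have h0' : (0 : ℝ) < ε := by exact_mod_cast h0
  have e1 : ∑ k, ((q k + ε * e k : ℚ) : ℝ) • β k =
      ∑ k, (q k : ℝ) • β k + (ε : ℝ) • ∑ k, (e k : ℝ) • β k := by
    rw [smul_sum, ← sum_add_distrib]
    refine sum_congr rfl fun k _ => ?_
    rw [smul_smul, ← add_smul]
    push_cast
    rfl
  refine ⟨fun k => q k + ε * e k, fun k => ?_, ?_, ?_⟩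
  · have h5 := h4 ε h0'.le le_rfl k (mem_univ _)
    have h6 := hq' k
    have : (0 : ℝ) < q k + ε * e k := by linarith
    exact_mod_cast this
  · rw [e1]
    exact h1.add (h2.smul h0'.le)
  · rw [e1]
    generalize ∑ k, (q k : ℝ) • β k = X at *
    generalize ∑ k, (e k : ℝ) • β k = Y at *
    simp only [map_add, map_smul, LinearMap.add_apply, LinearMap.smul_apply, smul_eq_mul]
    have a1 := kle _ _ h1 h1
    have a2 := mul_nonneg h0'.le (kle _ _ h1 h2)
    have a3 := mul_nonneg h0'.le (kle _ _ h2 h1)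
    have a4 := mul_pos h0' (mul_pos h0' h3)
    linarith

end Lat

open M3 M3S Pool.Agent.MP_96693b_ag.RS Pool.Agent.MP_cce4c9_lc Pool.Agent.MP_cce4c9_lc.H87 WithZero

variable {K : Type} [Field K] [Algebra ℂ K] {M : Model K 2}

/-- A function that is regular at all points of a curve is constant on it. -/
theorem const_of_reg (hM : B2 M) (G : Crv M) {f : K} (h : ∀ p, On G p → f ∈ (M.loc p).O) :
    ∃ c : ℂ, f - algebraMap ℂ K c ∈ (oC G).F 1 := by
  obtain ⟨p, hp, -⟩ := G.2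
  have h1 : G.1.val f ≤ 1 := hp f (h p hp)
  obtain ⟨c, hc⟩ := (H7.ll ℂ _ (hM.ff G)).2.2.1 (res G.1 f) fun u => by
    obtain ⟨q, hq⟩ := hM.cex G u
    exact hq.2 f (h q hq.1)
  refine ⟨c, mem_dvP.2 ?_⟩
  have h2 : G.1.val (f - algebraMap ℂ K c) ≤ 1 :=
    (G.1.val.map_sub _ _).trans (max_le h1 (G.1.const_le c))
  have h3 := (res_eq_zero h2).1 (by rw [res_sub h1 (G.1.const_le c), res_const, hc, sub_self])
  by_cases h0 : f - algebraMap ℂ K c = 0
  · simp [h0]
  · rw [G.1.val_lt_one (G.1.val_ne h0)] at h3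
    rw [G.1.val_le_exp (G.1.val_ne h0)]
    omega

/-- A function that is not constant on a curve has a pole along a curve that meets it. -/
theorem meet_of_nonconst (hM : B3 M) (G : Crv M) {f : K} (h0 : f ∈ (oC G).F 0)
    (h : ∀ c : ℂ, f - algebraMap ℂ K c ∉ (oC G).F 1) :
    ∃ C' ≠ G, C'.1.ord f < 0 ∧ 0 < II M (pr C') (pr G) := by
  by_contra hn
  push Not at hn
  obtain ⟨c, hc⟩ := const_of_reg hM.toB2 G (f := f) fun p hp =>
    hM.hart p f fun C' hC' => mem_dvP0.1 (by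
      by_cases e : C' = G
      · exact e ▸ h0
      · refine Or.inr (not_lt.1 fun h1 => ?_)
        exact absurd ((hM.meet C' G e).2 ⟨p, hC', hp⟩) (not_lt.2 (hn C' e h1)))
  exact h c hc

end Pool.Agent.MP_ee8c61_ag.M3J
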