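import Pool.Agent.MP_ee8c61_ag.M3J.Mdl
import Pool.Agent.MP_ee8c61_ag.M3RESID.Val

/-!
The frame from local potentials and the vanishing of the first cohomology.
-/

namespace Pool.Agent.MP_ee8c61_ag.M3J

open M3 M3RESID M3F M3S Pool.Agent.MP_96693b_ag.RS Pool.Agent.MP_cce4c9_lc.H87 WithZero Filter

noncomputable section

variable {K : Type} [Field K] [Algebra ℂ K] {M : Model K 2}

/-- A vector field has finitely many polar curves. -/
theorem reg_fin (hM : B1 M) (v : VF K) : {Γ : Crv M | ¬Reg (oC Γ) v}.Finite := by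
  refine (((M.fin.prod M.fin).biUnion fun x _ => hM.fin (v (x.1 / x.2))).subset ?_)
  intro Γ hΓ
  by_contra hc
  simp only [Set.mem_iUnion, not_exists, Set.mem_ofPred_eq, not_not] at hc
  apply hΓ
  obtain ⟨p, hp, -⟩ := Γ.2
  obtain ⟨u, hu, u0, hL⟩ := p.2
  have hle : ∀ g ∈ chA M.U u, g ∈ (oC Γ).F 0 := fun g hg => mem_dvP0.2 (hp g (hL.le hg))
  have h1 : ∀ g ∈ chA M.U u, v g ∈ (oC Γ).F 0 := by
    intro g hg
    induction hg using Algebra.adjoin_induction with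
    | mem x hx =>
      obtain ⟨y, hy, rfl⟩ := hx
      exact Or.inr (hc (y, u) ⟨hy, hu⟩).ge
    | algebraMap r => simp
    | add x y _ _ hx hy => rw [map_add]; exact add_mem hx hy
    | mul x y hx' hy' hx hy =>
      rw [Derivation.leibniz]
      exact add_mem (F_mul0 (hle x hx') hy) (F_mul0 (hle y hy') hx)
  have key : ∀ f s : K, Γ.1.val s = 1 → f ∈ (oC Γ).F 0 → v s ∈ (oC Γ).F 0 →
      v (f * s) ∈ (oC Γ).F 0 → v f ∈ (oC Γ).F 0 := fun f s hs hf h2 h3 => by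
    have s0 : s ≠ 0 := fun e => by simp [e] at hs
    apply F_cancel s0
    have h4 := sub_mem h3 (F_mul0 hf h2)
    rw [Derivation.leibniz, smul_eq_mul, smul_eq_mul, add_sub_cancel_left] at h4
    exact F_of_eq h4 (by rw [dvP_v, Γ.1.ord_of_val_one hs, add_zero])
  have h2 : ∀ g ∈ (M.loc p).O, v g ∈ (oC Γ).F 0 := fun g hg => by
    obtain ⟨a, ha, s, hs, hs0, e⟩ := hL.frac g hg
    exact key g s ((hM.unit p s).1 hs0 Γ hp) (mem_dvP0.2 (hp g hg)) (h1 s hs) (e ▸ h1 a ha)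
  intro f hf
  obtain ⟨s, hs, hs1, hsf⟩ := hM.frac Γ p hp f (mem_dvP0.1 hf)
  exact key f s hs1 hf (h2 s hs) (mul_comm s f ▸ h2 _ hsf)

/-- Local potentials that are compatible in the lattice `c`. -/
def Prim (M : Model K 2) (d : M3RESID.Dv K) (C : M3RESID.Co K 2) (v : VF K) (c : Crv M → ℤ) :
    Prop :=
  ∃ t : M.P → K, (∀ p Γ, On Γ p → v - ex d C (t p) ∈ LV (oC Γ) (c Γ)) ∧
    ∀ p q Γ, On Γ p → On Γ q → t p - t q ∈ LB C (oC Γ) (c Γ)

variable {d : M3RESID.Dv K} {C : M3RESID.Co K 2} {v : VF K} {b : ℂ}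

theorem Prim.anti {c c' : Crv M → ℤ} (h : Prim M d C v c') (hc : c ≤ c') : Prim M d C v c := by
  obtain ⟨t, h1, h2⟩ := h
  exact ⟨t, fun p Γ hp => LV_anti (hc Γ) (h1 p Γ hp),
    fun p q Γ hp hq => LB_anti (hc Γ) (h2 p q Γ hp hq)⟩

/-- Below the resonant level local primitives are compatible. -/
theorem prim_of_loc (hM : B1 M) {a : Crv M → ℂ} (hE : ∀ Γ, Exp d (oC Γ) (a Γ)) {c : Crv M → ℤ}
    (ha : ∀ Γ (m : ℤ), m < c Γ → a Γ + m ≠ 0)
    (h : ∀ p, ∃ u ∈ d.Ex, ∀ Γ, On Γ p → v - u ∈ LV (oC Γ) (c Γ)) : Prim M d C v c := by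
  choose u hu h using h
  choose t ht using fun p => exists_ex d C (hu p)
  refine ⟨t, fun p Γ hp => ht p ▸ h p Γ hp, fun p q Γ hp hq => ?_⟩
  obtain ⟨C', hA⟩ := exists_At hM Γ
  refine LB_of_ex hA (hE Γ) (ha Γ) ?_
  have := sub_mem (h q Γ hq) (h p Γ hp)
  rwa [sub_sub_sub_cancel_left, ht p, ht q, ← ex_sub] at this

theorem dv_reg {o : DV K} {C' : M3RESID.Co K 2} (hA : C'.At o 0) (hE : Exp d o 1) {X : VF K}
    (h : Reg o X) : d.δ X ∈ o.F 0 := by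
  have h0 : d.δ (C'.D 0) ∈ o.F 0 := by
    apply F_cancel (C'.ne 0)
    have := dv_D0 hA hE
    rw [map_one, add_sub_cancel_right] at this
    exact F_of_eq this (by simp [hA.v])
  obtain ⟨h1, h2⟩ := (reg_iff hA).1 h
  rw [dv2 d C' X]
  exact add_mem (add_mem (F_mul0 h1 h0) (hA.D 0 _ h1))
    (add_mem (F_mul0 h2 (dv_D1 hA hE)) (hA.D 1 _ h2))

theorem crd_at (hM : B1 M) {p : M.P} {κ : Chart K 2} (hκ : IsCrd (M.loc p) κ) {Γ : Crv M}
    (hp : On Γ p) {i : Fin 2} (hi : Eqn (pr Γ) p (κ.x i)) :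
    (coOf hM.toTrdS hκ).Dat (M.loc p).O (oC Γ) i := by
  have hv : Γ.1.ord (κ.x i) = 1 := by
    have := hi.2 Γ hp
    rw [Finsupp.single_eq_same] at this
    exact_mod_cast this
  have hdiv : ∀ g ∈ (M.loc p).O, g ∈ (oC Γ).F 1 → g / κ.x i ∈ (M.loc p).O := fun g hg h1 => by
    refine hM.hart p _ fun Γ' hp' => mem_dvP0.1 ?_
    by_cases e : Γ' = Γ
    · subst e
      exact F_of_eq (F_div h1 (κ.x i)) (by rw [dvP_v, hv]; rfl)
    · have h2 := hi.2 Γ' hp'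
      rw [Finsupp.single_eq_of_ne e] at h2
      have h3 : Γ'.1.ord (κ.x i) = 0 := by exact_mod_cast h2
      exact F_of_eq (F_div (mem_dvP0.2 (hp' g hg)) (κ.x i)) (by rw [dvP_v, h3]; rfl)
  refine ⟨⟨const_F _, fun j => ?_, fun j => reg_D hM.toLocA hp hκ j⟩,
    fun g hg => mem_dvP0.2 (hp g hg), hdiv⟩
  change Γ.1.ord (κ.x j) = _
  split_ifs with h
  · rw [h, hv]
  · have h0 := (mem_dvP0.2 (hp _ (hκ.x_mem j))).resolve_left (hκ.x_ne_zero j)
    by_contra h1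
    have h2 := hdiv _ (hκ.x_mem j) (Or.inr (by rw [dvP_v] at h0 ⊢; omega))
    have h3 : κ.x j ∈ κ.I (M.loc p) {i} := by
      rw [Chart.I_singleton]
      have := hκ.x_ne_zero i
      have e : κ.x j = (⟨_, h2⟩ : (M.loc p).O) • κ.x i := by
        change κ.x j = κ.x j / κ.x i * κ.x i
        field_simp
      rw [e]
      exact Submodule.smul_mem _ _ (Submodule.subset_span rfl)
    exact h (Finset.mem_singleton.1 (hκ.x_mem_I.1 h3))

/-- Reduction of the poles at all points. -/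
theorem prim_of_red (hM : B1 M) (hb : d.δ v = algebraMap ℂ K b) {a : Crv M → ℂ}
    (hE : ∀ Γ, Exp d (oC Γ) (a Γ)) {c : Crv M → ℤ} {J : Set (Crv M)} (hJ : SncC J)
    (h1 : ∀ Γ ∉ J, a Γ = 1 ∧ c Γ = -1 ∧ Reg (oC Γ) v) (h0 : ∀ Γ, c Γ ≤ 0)
    (ha : ∀ Γ (m : ℤ), m < c Γ → a Γ + m ≠ 0) : Prim M d C v c := by
  classical
  refine prim_of_loc hM hE ha fun p => ?_
  obtain ⟨κ, hκ, hs⟩ := hJ p
  let C' := coOf hM.toTrdS hκ
  let s : Finset (Fin 2) := Finset.univ.filter fun i => ∃ Γ ∈ J, On Γ p ∧ Eqn (pr Γ) p (κ.x i)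
  have hex : ∀ i, ∃ Γ : Option (Crv M), (i ∈ s → ∃ G, Γ = some G ∧ G ∈ J ∧ On G p ∧
      Eqn (pr G) p (κ.x i)) ∧ (i ∉ s → Γ = none) := fun i => by
    by_cases h : i ∈ s
    · obtain ⟨G, h2⟩ := (Finset.mem_filter.1 h).2
      exact ⟨some G, fun _ => ⟨G, rfl, h2⟩, fun h' => absurd h h'⟩
    · exact ⟨none, fun h' => absurd h' h, fun _ => rfl⟩
  choose g hg hg' using hex
  have uq : ∀ {G G' : Crv M} {i}, On G' p → Eqn (pr G) p (κ.x i) → G' ≠ G →
      (oC G').v (κ.x i) = 0 := fun {G G' i} hp h e => by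
    have h2 := h.2 G' hp
    rw [Finsupp.single_eq_of_ne e] at h2
    exact_mod_cast h2
  have off : ∀ Γ ∉ J, On Γ p → ∀ i ∈ s, (oC Γ).v (κ.x i) = 0 := fun Γ hΓ hp i hi => by
    obtain ⟨G, -, h2, -, h3⟩ := hg i hi
    exact uq hp h3 fun e => hΓ (e ▸ h2)
  have offm : ∀ Γ ∉ J, On Γ p → ∀ k : Fin 2 → ℤ, (∀ i ∉ s, k i = 0) →
      (oC Γ).v (C'.mon k) = 0 := fun Γ hΓ hp k hk => by
    have h2 : ∀ i, (oC Γ).v (κ.x i ^ k i) = 0 := fun i => by
      rw [v_zpow _ (hκ.x_ne_zero i)]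
      by_cases h : i ∈ s
      · rw [off Γ hΓ hp i h, mul_zero]
      · rw [hk i h, zero_mul]
    change (oC Γ).v (∏ i, κ.x i ^ k i) = 0
    rw [Fin.prod_univ_two, (oC Γ).mul _ _ (zpow_ne_zero _ (hκ.x_ne_zero 0))
      (zpow_ne_zero _ (hκ.x_ne_zero 1)), h2, h2, add_zero]
  have offd : ∀ Γ ∉ J, On Γ p → ∀ k : Fin 2 → ℤ, (∀ i ∉ s, k i = 0) → ∀ j,
      (oC Γ).v ((if j ∈ s then C'.z j else 1) * C'.mon k) = 0 := fun Γ hΓ hp k hk j => by
    split_ifs with h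
    · rw [(oC Γ).mul _ _ (C'.ne j) (C'.mon_ne k), offm Γ hΓ hp k hk]
      exact (add_zero _).trans (off Γ hΓ hp j h)
    · rw [one_mul, offm Γ hΓ hp k hk]
  have ing : ∀ Γ ∈ J, On Γ p → ∃ i ∈ s, g i = some Γ ∧ C'.Dat (M.loc p).O (oC Γ) i :=
    fun Γ hΓ hp => by
      obtain ⟨i, hi⟩ := hs Γ hΓ hp
      have h2 : i ∈ s := Finset.mem_filter.2 ⟨Finset.mem_univ _, Γ, hΓ, hp, hi⟩
      have hD := crd_at hM hκ hp hi
      obtain ⟨G, e, -, -, h3⟩ := hg i h2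
      refine ⟨i, h2, ?_, hD⟩
      by_contra h4
      have := uq hp h3 fun e' => h4 (e' ▸ e)
      have h5 := hD.adp.vz
      change (oC Γ).v (κ.x i) = 1 at h5
      omega
  let c' : Fin 2 → ℤ := fun i => (g i).elim 0 c
  let a' : Fin 2 → ℂ := fun i => (g i).elim 1 a
  let k : Fin 2 → ℤ := fun i => (g i).elim 0 fun G => ((hE G).fin v).choose - 1
  have hc0 : ∀ i ∉ s, c' i = 0 := fun i hi => by simp [c', hg' i hi]
  have hk0 : ∀ i ∉ s, k i = 0 := fun i hi => by simp [k, hg' i hi]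
  have hSt : C'.St (M.loc p).O := ⟨hκ.x_mem, hκ.pres⟩
  obtain ⟨u, hu, h⟩ := Co.redG (d := d) hSt (s := s) (a := a') (c := k) (c' := c') (v := v)
    (fun i hi => by
      obtain ⟨G, e, hG, hGp, hGe⟩ := hg i hi
      have hD := crd_at hM hκ hGp hGe
      refine hM.hart p _ fun Γ hp => mem_dvP0.1 ?_
      by_cases e' : Γ = G
      · subst e'
        have := F_div ((hE Γ).of_eul hD.adp.vz hD.adp.eul) (C'.z i)
        rw [hD.adp.vz] at this
        simpa [a', e] using this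
      · have h2 : d.δ (C'.th i) ∈ (oC Γ).F 0 := by
          by_cases hΓ : Γ ∈ J
          · obtain ⟨j, hj, -, hD'⟩ := ing Γ hΓ hp
            have := hD'.G_LV hj (Co.th_G s hκ.x_mem i)
            exact (hE Γ).reg _ this
          · obtain ⟨C'', hA⟩ := exists_At hM Γ
            refine dv_reg hA ((h1 Γ hΓ).1 ▸ hE Γ) fun f hf => ?_
            exact F_mul0 (mem_dvP0.2 (hp _ (hκ.x_mem i))) (reg_D hM.toLocA hp hκ i f hf)
        have := F_div (sub_mem h2 (const_F _ (a' i))) (C'.z i)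
        exact F_of_eq this (by rw [show (oC Γ).v (C'.z i) = 0 from uq hp hGe e']; rfl))
    (fun j => by
      refine hM.hart p _ fun Γ hp => mem_dvP0.1 ?_
      by_cases hΓ : Γ ∈ J
      · obtain ⟨i, hi, e, hD⟩ := ing Γ hΓ hp
        have h2 := ((hE Γ).fin v).choose_spec 0 _ (hD.adp.z_F j)
        refine (oC Γ).F_anti ?_ (F_div h2 _)
        have h3 : (oC Γ).v (if j ∈ s then C'.z j else 1) ≤ 1 := by
          split_ifs
          · rw [hD.adp.v]; split_ifs <;> omega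
          · rw [(oC Γ).one]; omega
        have h4 : (if j ∈ s then C'.z j else 1) ≠ 0 := by
          split_ifs
          · exact C'.ne j
          · exact one_ne_zero
        rw [(oC Γ).mul _ _ h4 (C'.mon_ne k), hD.adp.v_mon]
        have h5 : k i = ((hE Γ).fin v).choose - 1 := by simp [k, e]
        omega
      · have h2 := (h1 Γ hΓ).2.2 _ (mem_dvP0.2 (hp _ (hκ.x_mem j)))
        exact F_of_eq (F_div h2 _) (by rw [offd Γ hΓ hp k hk0 j]; rfl))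
    (by
      have : d.δ v / C'.mon c' = algebraMap ℂ K b * C'.mon (-c') := by
        have h2 := C'.mon_add c' (-c')
        rw [add_neg_cancel, C'.mon_zero] at h2
        rw [hb, div_eq_mul_inv, eq_inv_of_mul_eq_one_right h2.symm]
      rw [this]
      refine mul_mem ((M.loc p).O.algebraMap_mem b) (C'.mon_mem hκ.x_mem fun i => ?_)
      change 0 ≤ -c' i
      simp only [c']
      cases g i with
      | none => simp
      | some G => simpa using h0 G)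
    (fun i hi => by rw [hc0 i hi, hk0 i hi])
    (fun i hi j _ hj => by
      obtain ⟨G, e, -⟩ := hg i hi
      have := ha G j (by simpa [c', e] using hj)
      simpa [a', e, add_comm] using this)
  refine ⟨u, hu, fun Γ hp => ?_⟩
  by_cases hΓ : Γ ∈ J
  · obtain ⟨i, hi, e, hD⟩ := ing Γ hΓ hp
    have := hD.G_LV hi h
    simpa [c', e] using this
  · obtain ⟨C'', hA⟩ := exists_At hM Γ
    rw [(h1 Γ hΓ).2.1]
    refine Reg.lv hA fun f hf => ?_
    have h2 : ∀ j, (v - u) (C'.z j) ∈ (oC Γ).F 0 := fun j => by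
      have h4 : (if j ∈ s then C'.z j else 1) * C'.mon c' ≠ 0 := by
        refine mul_ne_zero ?_ (C'.mon_ne _)
        split_ifs
        · exact C'.ne j
        · exact one_ne_zero
      rw [← div_mul_cancel₀ ((v - u) (C'.z j)) h4]
      exact F_mul0 (mem_dvP0.2 (hp _ (h j))) (Or.inr (offd Γ hΓ hp c' hc0 j).ge)
    rw [ap2 C' (v - u) f]
    exact add_mem (F_mul0 (h2 0) (reg_D hM.toLocA hp hκ 0 f hf))
      (F_mul0 (h2 1) (reg_D hM.toLocA hp hκ 1 f hf))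

/-- The frame from compatible potentials, vanishing, and a big divisor on the logarithmic
curves. -/
theorem sv (hM : Fnd M) (h : Srf C d v b) {a : Crv M → ℂ} (hE : ∀ Γ, Exp d (oC Γ) (a Γ))
    {c : Crv M → ℤ} {J : Finset (Crv M)} (hJ : ∀ Γ ∉ J, a Γ = 1 ∧ c Γ = -1) (hP : Prim M d C v c)
    {Λ : Dr M} (hΛ : ∀ Γ, Λ Γ = -((c Γ : ℝ) + 1) - KD M Γ) {η : M.P → K}
    (hη : ∀ p, Eqn Λ p (η p)) (hML : M3V.ML M η) {S : Finset (Crv M)}
    (hS : M3SN.NegDef (II M) S) {D : Dr M} (hD : ∀ G ∈ S, II M D (pr G) ≤ 0)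
    (hg : IntermediateField.adjoin ℂ (H0 D : Set K) = ⊤)
    (hc : ∀ Γ ∉ S, 0 ≤ c Γ ∨ (c Γ = -1 ∧ a Γ = 1 ∧ Good d v (oC Γ) ∧ ⌊D Γ⌋ = 0)) :
    StarS d v b ⊥ := by
  obtain ⟨t, h1, h2⟩ := hP
  have hB := hM.toB3.toB2
  have hρ := rho_ne hB C
  choose pt hpt using fun Γ : Crv M => (⟨_, Γ.2.choose_spec.1⟩ : ∃ p, On Γ p)
  have iff : ∀ Γ x, x ∈ LB C (oC Γ) (c Γ) ↔ Γ.1.val (x * rho C) ≤ exp ⌊Λ Γ⌋ := fun Γ x => by
    rw [hΛ, mem_LB_iff hB]
  obtain ⟨f, hf⟩ := glue hB.toB1 hη hML (fun Γ => t (pt Γ) * rho C)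
    ((J.finite_toSet.union (reg_fin hB.toB1 v)).subset fun Γ hΓ => by
      by_contra hn
      simp only [Set.mem_union, not_or, Set.mem_ofPred_eq, not_not, Finset.mem_coe] at hn
      apply hΓ
      obtain ⟨C', hA⟩ := exists_At hB.toB1 Γ
      obtain ⟨e1, e2⟩ := hJ Γ hn.1
      refine (iff Γ _).1 (LB_of_ex hA (hE Γ) (fun m hm => ?_) ?_)
      · have : ((1 + m : ℤ) : ℂ) ≠ 0 := Int.cast_ne_zero.2 (by omega)
        rw [e1]
        simpa using this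
      · have := sub_mem (e2 ▸ hn.2.lv hA) (h1 _ Γ (hpt Γ))
        rwa [sub_sub_cancel] at this)
    (fun p => ⟨t p * rho C, fun Γ hp => by
      rw [← sub_mul]
      exact (iff Γ _).1 (h2 p _ Γ hp (hpt Γ))⟩)
  have := hM.hfin D
  refine core h (Γ := {Γ : Crv M // Γ ∉ S}) (fun γ => oC γ.1) (fun γ => a γ.1) (fun γ => c γ.1)
    (fun γ => -⌊D γ.1⌋) (fun γ => exists_At hB.toB1 γ.1) (fun γ => hE γ.1) (fun γ => t (pt γ.1))
    (fun γ => h1 _ _ (hpt γ.1)) (f / rho C) (fun γ => (iff _ _).2 ?_) (fun γ => ?_) (H0 D) hg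
    fun g => ?_
  · rw [sub_mul, div_mul_cancel₀ _ hρ]
    exact hf γ.1
  · exact (hc γ.1 γ.2).imp id fun h => ⟨h.1, h.2.1, h.2.2.1, by rw [h.2.2.2, neg_zero]⟩
  · rw [mem_H0_off hM hS hD]
    simp only [mem_dvP, neg_neg, Subtype.forall]

end

end Pool.Agent.MP_ee8c61_ag.M3J
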