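import Pool.Agent.MP_ee8c61_ag.M3J.SV
import Pool.Agent.MP_ee8c61_ag.M3V.Spec2

/-!
The frame from local potentials, numerical form.
-/

namespace Pool.Agent.MP_ee8c61_ag.M3J

open M3 M3RESID M3F M3S Pool.Agent.MP_96693b_ag.RS Pool.Agent.MP_cce4c9_lc.H87 WithZero Filter

noncomputable section

variable {K : Type} [Field K] [Algebra ℂ K] {M : Model K 2}

theorem II_dvr (hM : DegS M) {f : K} (hf : f ≠ 0) (D : Dr M) : II M (dvr M f) D = 0 := by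
  induction D using Finsupp.induction_linear with
  | zero => simp
  | add x y hx hy => rw [map_add, hx, hy, add_zero]
  | single Γ r =>
    have : (Finsupp.single Γ r : Dr M) = r • pr Γ := by simp
    rw [this, map_smul, hM.num f Γ hf, smul_zero]

variable {d : M3RESID.Dv K} {C : M3RESID.Co K 2} {v : VF K} {b : ℂ}

/-- The canonical class is numerically the divisor of the exponents. -/
theorem KD_num (hM : B3 M) (h : Srf C d v b) {a : Crv M → ℚ} (hE : ∀ Γ, Exp d (oC Γ) (a Γ))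
    {A : Dr M} (hA : ∀ Γ, A Γ = a Γ - 1) (D : Dr M) : II M (KD M) D = II M A D := by
  obtain ⟨q, ψ, hq, hψ, hd⟩ := h.rat
  have e : KD M = A + dvr M (rho C) - (q : ℝ)⁻¹ • dvr M ψ := by
    ext Γ
    have := exp_eq hM.toB2 hq hψ hd (hE Γ)
    rw [Finsupp.sub_apply, Finsupp.add_apply, Finsupp.smul_apply, hM.dva, hM.dva, hA, smul_eq_mul,
      this]
    ring
  rw [e]
  simp only [map_sub, map_add, map_smul, LinearMap.sub_apply, LinearMap.add_apply,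
    LinearMap.smul_apply, II_dvr hM.toDegS hψ, II_dvr hM.toDegS (rho_ne hM.toB2 C)]
  simp

theorem svk (hM : Fnd M) (hK : M3V.KvN M) (h : Srf C d v b) {a : Crv M → ℚ}
    (hE : ∀ Γ, Exp d (oC Γ) (a Γ)) {c : Crv M → ℤ} {J : Finset (Crv M)}
    (hs : SncC (J : Set (Crv M))) (hJ : ∀ Γ ∉ J, a Γ = 1 ∧ c Γ = -1) (hP : Prim M d C v c)
    {N : Dr M} (hQ : M3SN.IsQ N) (hN0 : ∀ Γ ∉ J, N Γ = 0)
    (h1 : ∀ Γ, N Γ ≤ 1 - 2 * a Γ - c Γ) (h2 : ∀ Γ, -2 * (a Γ : ℝ) - c Γ < N Γ)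
    (hN : Nef N) (hN2 : 0 < II M N N) {S : Finset (Crv M)}
    (hS : M3SN.NegDef (II M) S) {D : Dr M} (hD : ∀ G ∈ S, II M D (pr G) ≤ 0)
    (hg : IntermediateField.adjoin ℂ (H0 D : Set K) = ⊤)
    (hc : ∀ Γ ∉ S, 0 ≤ c Γ ∨ (c Γ = -1 ∧ a Γ = 1 ∧ Good d v (oC Γ) ∧ ⌊D Γ⌋ = 0)) :
    StarS d v b ⊥ := by
  classical
  let A : Dr M := Finsupp.onFinset J (fun Γ => (a Γ : ℝ) - 1) fun Γ hΓ => by
    by_contra hn
    exact hΓ (by simp [(hJ Γ hn).1])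
  let Z : Dr M := Finsupp.onFinset J (fun Γ => -((c Γ : ℝ) + 1)) fun Γ hΓ => by
    by_contra hn
    exact hΓ (by simp [(hJ Γ hn).2])
  have hA : ∀ Γ, A Γ = a Γ - 1 := fun _ => rfl
  have hZ : ∀ Γ, Z Γ = -((c Γ : ℝ) + 1) := fun _ => rfl
  have hI : IsInt (Z - KD M) := fun Γ => by
    obtain ⟨n, hn⟩ := hM.kZ Γ
    exact ⟨-(c Γ + 1) - n, by rw [Finsupp.sub_apply, hZ, hn]; push_cast; ring⟩
  choose η hη using hM.eqn _ hI
  have hK' := KD_num hM.toB3 h hE hA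
  have hΔ : ∀ Γ, (Z - (2 : ℝ) • A - N) Γ = 1 - 2 * a Γ - c Γ - N Γ := fun Γ => by
    rw [Finsupp.sub_apply, Finsupp.sub_apply, Finsupp.smul_apply, hZ, hA, smul_eq_mul]
    ring
  have e : ∀ E, II M (Z - KD M - KD M - (Z - (2 : ℝ) • A - N)) E = II M N E := fun E => by
    simp only [map_sub, map_smul, LinearMap.sub_apply, LinearMap.smul_apply, hK', smul_eq_mul]
    ring
  refine sv hM h (a := fun Γ => a Γ) hE (J := J)
    (fun Γ hΓ => ⟨by simp [(hJ Γ hΓ).1], (hJ Γ hΓ).2⟩) hP (Λ := Z - KD M) (fun Γ => rfl) hη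
    (hK J _ (Z - (2 : ℝ) • A - N) η hs hI (fun Γ => ?_) (fun Γ hΓ => ?_) (fun Γ => ?_)
      (fun Γ => ?_) (fun Γ => ?_) ?_ hη) hS hD hg
    fun Γ hΓ => (hc Γ hΓ).imp id fun h => ⟨h.1, by simp [h.2.1], h.2.2⟩
  · obtain ⟨r, hr⟩ := hQ Γ
    exact ⟨1 - 2 * a Γ - c Γ - r, by rw [hΔ, hr]; push_cast; ring⟩
  · rw [hΔ, (hJ Γ hΓ).1, (hJ Γ hΓ).2, hN0 Γ hΓ]
    norm_num
  · have := h1 Γ
    rw [hΔ, Finsupp.zero_apply]
    linarith
  · have := h2 Γ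
    rw [hΔ]
    linarith
  · rw [e]
    exact hN Γ
  · rw [e, hM.sym, e]
    exact hN2

end

end Pool.Agent.MP_ee8c61_ag.M3J
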