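import Mathlib

/-!
The semisimple part of a locally finite derivation of a field, with weights moved along an
additive map.
-/

namespace Pool.Agent.MP_ee8c61_ag.M3J

noncomputable section

open Module

theorem bil_nil {M N P : Type} [AddCommGroup M] [Module ℂ M] [AddCommGroup N] [Module ℂ N]
    [AddCommGroup P] [Module ℂ P] (B : M →ₗ[ℂ] N →ₗ[ℂ] P) (a : End ℂ M) (b : End ℂ N)
    (c : End ℂ P) (h : ∀ x y, c (B x y) = B (a x) y + B x (b y)) :
    ∀ (n m : ℕ) (x : M) (y : N), (a ^ n) x = 0 → (b ^ m) y = 0 → (c ^ (n + m)) (B x y) = 0 := by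
  intro n
  induction n with
  | zero =>
    intro m x y hx _
    have : x = 0 := by simpa using hx
    simp [this]
  | succ n ih =>
    intro m x
    induction m with
    | zero =>
      intro y _ hy
      have : y = 0 := by simpa using hy
      simp [this]
    | succ m ihm =>
      intro y hx hy
      have e : n + 1 + (m + 1) = (n + (m + 1)) + 1 := by ring
      rw [e, pow_succ, End.mul_apply, h, map_add]
      have h1 : (c ^ (n + (m + 1))) (B (a x) y) = 0 :=
        ih (m + 1) (a x) y (by rw [← End.mul_apply, ← pow_succ]; exact hx) hy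
      have h2 : (c ^ (n + 1 + m)) (B x (b y)) = 0 :=
        ihm (b y) hx (by rw [← End.mul_apply, ← pow_succ]; exact hy)
      have e2 : n + (m + 1) = n + 1 + m := by ring
      rw [h1, e2, h2, add_zero]

theorem bil_gen {M N P : Type} [AddCommGroup M] [Module ℂ M] [AddCommGroup N] [Module ℂ N]
    [AddCommGroup P] [Module ℂ P] (B : M →ₗ[ℂ] N →ₗ[ℂ] P) (a : End ℂ M) (b : End ℂ N)
    (c : End ℂ P) (h : ∀ x y, c (B x y) = B (a x) y + B x (b y)) {α β : ℂ} {x : M} {y : N}
    (hx : x ∈ a.maxGenEigenspace α) (hy : y ∈ b.maxGenEigenspace β) :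
    B x y ∈ c.maxGenEigenspace (α + β) := by
  rw [End.mem_maxGenEigenspace] at *
  obtain ⟨n, hn⟩ := hx
  obtain ⟨m, hm⟩ := hy
  refine ⟨n + m, bil_nil B _ _ _ (fun x y => ?_) n m x y hn hm⟩
  simp only [LinearMap.sub_apply, LinearMap.smul_apply, End.one_apply, h, map_sub, map_smul]
  rw [add_smul]
  abel

variable {K : Type} [Field K] [Algebra ℂ K]

/-- The operator `x ↦ v x + f x`. -/
def op (v : Derivation ℂ K K) (f : K) : End ℂ K := v.toLinearMap + LinearMap.mulLeft ℂ f

theorem op_apply (v : Derivation ℂ K K) (f x : K) : op v f x = v x + f * x := rfl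

/-- The generalised eigenspaces. -/
abbrev E (v : Derivation ℂ K K) (f : K) (α : ℂ) : Submodule ℂ K := (op v f).maxGenEigenspace α

theorem E_mul (v : Derivation ℂ K K) {f f' : K} {α β : ℂ} {x y : K} (hx : x ∈ E v f α)
    (hy : y ∈ E v f' β) : x * y ∈ E v (f + f') (α + β) := by
  refine bil_gen (LinearMap.mul ℂ K) _ _ _ (fun x y => ?_) hx hy
  simp only [LinearMap.mul_apply', op_apply, Derivation.leibniz, smul_eq_mul]
  ring

theorem E_of_eq (v : Derivation ℂ K K) {f : K} {α : ℂ} {x : K}
    (h : v x + f * x = algebraMap ℂ K α * x) : x ∈ E v f α := by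
  rw [End.mem_maxGenEigenspace]
  refine ⟨1, ?_⟩
  rw [pow_one, LinearMap.sub_apply, LinearMap.smul_apply, End.one_apply, op_apply, h,
    Algebra.smul_def, sub_self]

theorem E_one (v : Derivation ℂ K K) : (1 : K) ∈ E v 0 0 := E_of_eq v (by simp)

theorem E_pow (v : Derivation ℂ K K) {f : K} {α : ℂ} {x : K} (hx : x ∈ E v f α) (n : ℕ) :
    x ^ n ∈ E v (n * f) (n * α) := by
  induction n with
  | zero => simpa using E_one v
  | succ n ih =>
    have := E_mul v ih hx
    rw [pow_succ]
    push_cast
    rw [add_mul, add_mul, one_mul, one_mul]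
    exact this

theorem E_der (v : Derivation ℂ K K) {α : ℂ} {x : K} (hx : x ∈ E v 0 α) : v x ∈ E v 0 α := by
  have h := End.mapsTo_maxGenEigenspace_of_comm (f := op v 0) (g := op v 0) (Commute.refl _) α hx
  simpa [op_apply] using h

/-- The locally finite elements. -/
def lf (v : Derivation ℂ K K) : Subalgebra ℂ K :=
  Submodule.toSubalgebra (⨆ α, E v 0 α) (Submodule.mem_iSup_of_mem 0 (E_one v)) (by
    intro x y hx hy
    induction hx using Submodule.iSup_induction' with
    | mem α x hx =>
      induction hy using Submodule.iSup_induction' with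
      | mem β y hy => exact Submodule.mem_iSup_of_mem (α + β) (by simpa using E_mul v hx hy)
      | zero => simp
      | add y y' _ _ h h' => rw [mul_add]; exact add_mem h h'
    | zero => simp
    | add x x' _ _ h h' => rw [add_mul]; exact add_mem h h')

theorem mem_lf (v : Derivation ℂ K K) {x : K} : x ∈ lf v ↔ x ∈ ⨆ α, E v 0 α := Iff.rfl

theorem exists_proj (v : Derivation ℂ K K) (π : ℂ → ℂ) :
    ∃ p : K →ₗ[ℂ] K, ∀ α, ∀ x ∈ E v 0 α, p x = π α • x := by
  classical
  have hi : iSupIndep (fun α => E v 0 α) := End.independent_maxGenEigenspace (op v 0)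
  have hinj := hi.dfinsupp_lsum_injective
  obtain ⟨l, hl⟩ := LinearMap.exists_leftInverse_of_injective _ (LinearMap.ker_eq_bot.2 hinj)
  refine ⟨(DFinsupp.lsum ℕ fun α => π α • (E v 0 α).subtype) ∘ₗ l, fun α x hx => ?_⟩
  have h1 : l x = DFinsupp.single α ⟨x, hx⟩ := by
    have := LinearMap.congr_fun hl (DFinsupp.single α ⟨x, hx⟩)
    simpa using this
  simp [h1]

/-- A derivation of a subalgebra extends to the field of fractions. -/
theorem exists_ext (F : Subalgebra ℂ K) (hF : ∀ z : K, ∃ a ∈ F, ∃ b ∈ F, z = a / b)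
    (p : K →ₗ[ℂ] K) (hp : ∀ x ∈ F, ∀ y ∈ F, p (x * y) = x * p y + y * p x) :
    ∃ δ : Derivation ℂ K K, ∀ x ∈ F, δ x = p x := by
  have h1 : p 1 = 0 := by
    have := hp 1 F.one_mem 1 F.one_mem
    simpa using this
  have : IsFractionRing F K := IsFractionRing.of_field F K fun z => by
    obtain ⟨a, ha, b, hb, h⟩ := hF z
    exact ⟨⟨a, ha⟩, ⟨b, hb⟩, h⟩
  let f : F →+* TrivSqZeroExt K K :=
    { toFun := fun x => TrivSqZeroExt.inl (x : K) + TrivSqZeroExt.inr (p x)
      map_one' := by simp [h1]
      map_mul' := fun x y => by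
        ext
        · simp
        · simp [hp x x.2 y y.2, mul_comm]
      map_zero' := by simp
      map_add' := fun x y => by
        ext <;> simp }
  have hu : ∀ y : nonZeroDivisors F, IsUnit (f y) := fun y => by
    rw [TrivSqZeroExt.isUnit_iff_isUnit_fst]
    simp [f]
  let g : K →+* TrivSqZeroExt K K := IsLocalization.lift hu
  have hg : ∀ x : F, g x = f x := fun x => IsLocalization.lift_eq hu x
  have hfst : ∀ z, (g z).fst = z := by
    have : (TrivSqZeroExt.fstHom K K K).toRingHom.comp g = RingHom.id K := by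
      apply IsLocalization.ringHom_ext (nonZeroDivisors F)
      ext x
      simp only [RingHom.comp_apply, RingHom.id_apply]
      change (g (x : K)).fst = (x : K)
      rw [hg]
      simp [f]
    intro z
    exact RingHom.congr_fun this z
  have hc : ∀ c : ℂ, (g (algebraMap ℂ K c)).snd = 0 := fun c => by
    have := hg ⟨algebraMap ℂ K c, F.algebraMap_mem c⟩
    simp only at this
    rw [this]
    have h2 : p (algebraMap ℂ K c) = 0 := by
      rw [Algebra.algebraMap_eq_smul_one, map_smul, h1, smul_zero]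
    simp [f, h2]
  have hm : ∀ x y, (g (x * y)).snd = x * (g y).snd + y * (g x).snd := fun x y => by
    rw [map_mul, TrivSqZeroExt.snd_mul, hfst, hfst]
    simp [mul_comm]
  let L : K →ₗ[ℂ] K :=
    { toFun := fun z => (g z).snd
      map_add' := fun x y => by simp
      map_smul' := fun c x => by
        simp only [Algebra.smul_def, hm, hc, RingHom.id_apply, mul_zero, add_zero] }
  refine ⟨Derivation.mk' L fun x y => hm x y, fun x hx => ?_⟩
  change (g x).snd = p x
  have := hg ⟨x, hx⟩
  simp only at this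
  rw [this]
  simp [f]

theorem exists_ss (v : Derivation ℂ K K) (π : ℂ →+ ℂ)
    (hF : ∀ z : K, ∃ a ∈ lf v, ∃ b ∈ lf v, z = a / b) :
    ∃ v' : Derivation ℂ K K, ∀ α, ∀ x ∈ E v 0 α, v' x = algebraMap ℂ K (π α) * x := by
  obtain ⟨p, hp⟩ := exists_proj v π
  obtain ⟨δ, hδ⟩ := exists_ext (lf v) hF p (by
    intro x hx y hy
    rw [mem_lf] at hx hy
    induction hx using Submodule.iSup_induction' with
    | mem α x hx =>
      induction hy using Submodule.iSup_induction' with
      | mem β y hy =>
        have hxy : x * y ∈ E v 0 (α + β) := by simpa using E_mul v hx hy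
        rw [hp _ _ hxy, hp _ _ hx, hp _ _ hy, map_add]
        simp only [Algebra.smul_def, map_add]
        ring
      | zero => simp
      | add y y' _ _ h h' => rw [mul_add, map_add, h, h', map_add]; ring
    | zero => simp
    | add x x' _ _ h h' => rw [add_mul, map_add, h, h', map_add]; ring)
  refine ⟨δ, fun α x hx => ?_⟩
  rw [hδ x (Submodule.mem_iSup_of_mem α hx), hp α x hx, Algebra.smul_def]

end

end Pool.Agent.MP_ee8c61_ag.M3J
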