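import Pool.Agent.MP_ee8c61_ag.M3J.SVK
import Pool.Agent.MP_ee8c61_ag.M3SN.All

/-!
The choice of the lattice in the two projective cases.
-/

namespace Pool.Agent.MP_ee8c61_ag.M3J

open M3 M3RESID M3F M3S Pool.Agent.MP_96693b_ag.RS Pool.Agent.MP_cce4c9_lc.H87 WithZero Filter

noncomputable section

variable {K : Type} [Field K] [Algebra ℂ K] {M : Model K 2}
variable {d : M3RESID.Dv K} {C : M3RESID.Co K 2} {v : VF K} {b : ℂ}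

/-- Potentials on the sets where the sections `ρ i` generate. -/
theorem prim_of_cc {ι : Type} (ρ θ : ι → K) {c : Crv M → ℤ}
    (hb : ∀ p, ∃ i, ρ i ≠ 0 ∧ ∀ j, ρ j / ρ i ∈ (M.loc p).O)
    (h1 : ∀ i (Γ : Crv M), ρ i ≠ 0 → (∀ j, ρ j / ρ i ∈ (oC Γ).F 0) →
      v - ex d C (θ i) ∈ LV (oC Γ) (c Γ))
    (h2 : ∀ i i' (Γ : Crv M), ρ i ≠ 0 → ρ i' ≠ 0 → (∀ j, ρ j / ρ i ∈ (oC Γ).F 0) →
      (∀ j, ρ j / ρ i' ∈ (oC Γ).F 0) → θ i - θ i' ∈ LB C (oC Γ) (c Γ)) : Prim M d C v c := by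
  choose i h0 hi using hb
  exact ⟨fun p => θ (i p), fun p Γ hp => h1 _ Γ (h0 p) fun j => mem_dvP0.2 (hp _ (hi p j)),
    fun p q Γ hp hq => h2 _ _ Γ (h0 p) (h0 q) (fun j => mem_dvP0.2 (hp _ (hi p j)))
      fun j => mem_dvP0.2 (hq _ (hi q j))⟩

theorem exists_small {ι : Type} (J : Finset ι) (Q : ι → ℚ) (hQ : ∀ i, 0 ≤ Q i) :
    ∃ δ : ℚ, 0 < δ ∧ ∀ i ∈ J, δ * Q i ≤ 1 := by
  have h : 0 < 1 + ∑ i ∈ J, Q i := by
    have := Finset.sum_nonneg fun i (_ : i ∈ J) => hQ i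
    linarith
  refine ⟨(1 + ∑ i ∈ J, Q i)⁻¹, inv_pos.2 h, fun i hi => ?_⟩
  rw [inv_mul_le_iff₀ h, mul_one]
  have := Finset.single_le_sum (fun i (_ : i ∈ J) => hQ i) hi
  linarith

theorem vq (hM : Fnd M) (hO : (toNS hM.toFinS).OK) (hK : M3V.KvN M) (h : Srf C d v b)
    {a α Q : Crv M → ℚ} (hE : ∀ Γ, Exp d (oC Γ) (a Γ)) {J : Finset (Crv M)}
    (hs : SncC (J : Set (Crv M))) (hJ : ∀ Γ ∉ J, a Γ = 1 ∧ α Γ = 0 ∧ Q Γ = 0)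
    (hl : ∀ Γ, α Γ ≤ a Γ) (hQ : ∀ Γ, 0 ≤ Q Γ) (hlQ : ∀ Γ, a Γ = α Γ → 0 < Q Γ)
    {A Qd : Dr M} (hA : ∀ Γ, A Γ = α Γ) (hQd : ∀ Γ, Qd Γ = Q Γ) (nA : Nef (-A)) (nQ : Nef Qd)
    (bQ : 0 < II M Qd Qd) {S : Finset (Crv M)} (hS : M3SN.NegDef (II M) S) {D : Dr M}
    (hD : ∀ G ∈ S, II M D (pr G) ≤ 0) (hg : IntermediateField.adjoin ℂ (H0 D : Set K) = ⊤)
    (hc : ∀ Γ ∉ S, a Γ = α Γ ∨ (α Γ = 0 ∧ Q Γ = 0 ∧ D Γ = 0 ∧ Hon d v (oC Γ) (a Γ)))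
    (hP : ((∀ Γ, α Γ ≤ 0) ∧ ∀ Γ ∉ J, Reg (oC Γ) v) ∨ Prim M d C v fun Γ => ⌈α Γ - a Γ⌉) :
    StarS d v b ⊥ := by
  obtain ⟨δ, hδ, hδQ⟩ := exists_small J Q hQ
  have hδR : (0 : ℝ) < δ := by exact_mod_cast hδ
  have hδ1 : ∀ Γ, δ * Q Γ ≤ 1 := fun Γ => by
    by_cases h : Γ ∈ J
    · exact hδQ Γ h
    · rw [(hJ Γ h).2.2, mul_zero]; exact zero_le_one
  let x : Crv M → ℚ := fun Γ => 1 - 2 * (a Γ - α Γ) - δ * Q Γ
  have hx : ∀ Γ, x Γ < 1 - (a Γ - α Γ) := fun Γ => by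
    have h1 := hl Γ
    have h2 := mul_nonneg hδ.le (hQ Γ)
    rcases h1.eq_or_lt with e | e
    · have := mul_pos hδ (hlQ Γ e.symm)
      simp only [x]
      linarith
    · simp only [x]
      linarith
  have hc0 : ∀ Γ, ⌊x Γ⌋ ≤ ⌈α Γ - a Γ⌉ := fun Γ => by
    have h1 := Int.floor_le (x Γ)
    have h2 := Int.le_ceil (α Γ - a Γ)
    have h3 := hx Γ
    have : (⌊x Γ⌋ : ℚ) < (⌈α Γ - a Γ⌉ + 1 : ℤ) := by push_cast; linarith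
    have := Int.cast_lt.1 this
    omega
  have hoff : ∀ Γ, α Γ = 0 → Q Γ = 0 → a Γ = 1 → ⌊x Γ⌋ = -1 := fun Γ e1 e2 e3 => by
    simp only [x, e1, e2, e3]
    norm_num
  have hN : ∀ Γ, ((2 : ℝ) • (-A) + (δ : ℝ) • Qd) Γ = ((1 - 2 * a Γ - x Γ : ℚ) : ℝ) := fun Γ => by
    rw [Finsupp.add_apply, Finsupp.smul_apply, Finsupp.smul_apply, Finsupp.neg_apply, hA, hQd]
    simp only [x, smul_eq_mul]
    push_cast
    ring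
  have kle : ∀ P P' : Dr M, Nef P → Nef P' → 0 ≤ II M P P' := hO.tools.kle
  refine svk hM hK h hE (c := fun Γ => ⌊x Γ⌋) hs
    (fun Γ hΓ => ⟨(hJ Γ hΓ).1, hoff Γ (hJ Γ hΓ).2.1 (hJ Γ hΓ).2.2 (hJ Γ hΓ).1⟩) ?_
    (N := (2 : ℝ) • (-A) + (δ : ℝ) • Qd) (fun Γ => ⟨_, hN Γ⟩) (fun Γ hΓ => ?_) (fun Γ => ?_)
    (fun Γ => ?_) (fun Γ => ?_) ?_ hS hD hg fun Γ hΓ => ?_
  · rcases hP with ⟨h0, hr⟩ | hP
    · refine prim_of_red hM.toB1 h.prim (a := fun Γ => a Γ) hE hs (fun Γ hΓ =>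
        ⟨by simp [(hJ Γ hΓ).1], hoff Γ (hJ Γ hΓ).2.1 (hJ Γ hΓ).2.2 (hJ Γ hΓ).1, hr Γ hΓ⟩)
        (fun Γ => (hc0 Γ).trans (Int.ceil_le.2 (by have := hl Γ; push_cast; linarith)))
        fun Γ m hm e => ?_
      have e' : a Γ + m = 0 := by exact_mod_cast e
      have h1 := Int.floor_le (x Γ)
      have h2 : ((m + 1 : ℤ) : ℚ) ≤ ⌊x Γ⌋ := Int.cast_le.2 hm
      have h3 := hx Γ
      have h4 := h0 Γ
      push_cast at h2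
      linarith
    · exact hP.anti hc0
  · rw [hN]
    simp only [x, (hJ Γ hΓ).1, (hJ Γ hΓ).2.1, (hJ Γ hΓ).2.2]
    norm_num
  · rw [hN]
    have : 1 - 2 * a Γ - x Γ ≤ 1 - 2 * a Γ - ⌊x Γ⌋ := by linarith [Int.floor_le (x Γ)]
    exact_mod_cast this
  · rw [hN]
    have : -2 * a Γ - ⌊x Γ⌋ < 1 - 2 * a Γ - x Γ := by linarith [Int.lt_floor_add_one (x Γ)]
    exact_mod_cast this
  · rw [map_add, map_smul, map_smul, LinearMap.add_apply, LinearMap.smul_apply,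
      LinearMap.smul_apply, smul_eq_mul, smul_eq_mul]
    exact add_nonneg (mul_nonneg zero_le_two (nA Γ)) (mul_nonneg hδR.le (nQ Γ))
  · simp only [map_add, map_smul, LinearMap.add_apply, LinearMap.smul_apply, smul_eq_mul]
    have h1 := kle _ _ nA nA
    have h2 := mul_nonneg hδR.le (kle _ _ nA nQ)
    have h3 := mul_nonneg hδR.le (kle _ _ nQ nA)
    have h4 := mul_pos hδR (mul_pos hδR bQ)
    linarith
  · rcases hc Γ hΓ with e | ⟨e1, e2, e3, ⟨r, hr, e4⟩ | ⟨e4, e5⟩⟩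
    · refine Or.inl (Int.floor_nonneg.2 ?_)
      have := hδ1 Γ
      simp only [x, e]
      linarith
    · refine Or.inl (Int.floor_nonneg.2 ?_)
      have h2 : (2 : ℚ) ≤ r := by exact_mod_cast hr
      have h3 : (1 : ℚ) / r ≤ 1 / 2 := one_div_le_one_div_of_le two_pos h2
      simp only [x, e1, e2, e4]
      linarith
    · exact Or.inr ⟨hoff Γ e1 e2 e4, e4, e5, by rw [e3, Int.floor_zero]⟩

end

end Pool.Agent.MP_ee8c61_ag.M3J
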